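import Pool.Agent.Y885.TU1

/-!
# Linear forms `q n + Y` with a random constant `Y` with a thin large spectrum
-/

set_option autoImplicit false

namespace Pool.Agent.W2helper30.CF

open Finset
open Pool.Agent.H807R2.Dav
open Pool.Agent.H373R2.T7
open Pool.Agent.W93.DG
open Pool.Agent.W93.RD
open Pool.Agent.Y885 (TLaw tl_dif)
open Pool.Agent.W93.TD (sizes diff_num tele_w avg_w total_w)

lemma sum_mult (q N : ℕ) (hq : 1 ≤ q) (F : ℕ → ℝ) :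
    ∑ m ∈ Icc 1 (q * N), (if q ∣ m then F m else 0) = ∑ n ∈ Icc 1 N, F (q * n) := by
  classical
  rw [← sum_filter]
  symm
  apply sum_bij (fun n _ => q * n)
  · intro n hn
    rw [mem_Icc] at hn
    rw [mem_filter, mem_Icc]
    exact ⟨⟨Nat.mul_pos (by omega) (by omega), Nat.mul_le_mul_left _ hn.2⟩, dvd_mul_right _ _⟩
  · intro n _ n' _ h
    exact Nat.eq_of_mul_eq_mul_left (by omega) h
  · intro m hm
    rw [mem_filter, mem_Icc] at hm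
    obtain ⟨⟨h1, h2⟩, n, rfl⟩ := hm
    refine ⟨n, ?_, rfl⟩
    rw [mem_Icc]
    constructor
    · rcases Nat.eq_zero_or_pos n with h | h
      · rw [h, mul_zero] at h1
        omega
      · exact h
    · exact Nat.le_of_mul_le_mul_left h2 (by omega)
  · intro n _
    rfl

/-- one random constant -/
theorem cf_dif (b E c : ℕ) (hb : 2 ≤ b) (hE : 1 ≤ E) (U : ℕ) : ∃ B : ℕ, ∀ Ez : ℕ, ∃ K₀ : ℕ, ∀ K : ℕ, K₀ ≤ K →
    ∀ z : ℕ, Real.log ((b ^ K : ℕ) : ℝ) ^ B ≤ z → (z : ℝ) ≤ Real.log ((b ^ K : ℕ) : ℝ) ^ Ez →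
    ∀ (ι : Type) (Ω : Finset ι) (p : ι → ℝ) (Y : ι → ℤ), TLaw b E c (2 * U + 6) K Ω p Y →
    ∀ q N : ℕ, 1 ≤ q → (q : ℤ) * N ≤ (b : ℤ) ^ K →
    (∀ ω ∈ Ω, -(b : ℤ) ^ K < Y ω ∧ (q : ℤ) * N + Y ω ≤ (b : ℤ) ^ K) →
    ∀ Q : ℝ, 0 < Q → ∀ G : ℕ → ℝ, (∀ n ∈ Icc 1 N, |G n| ≤ Q) →
    ∑ ω ∈ Ω, p ω * |∑ n ∈ Icc 1 N, G n * (lamI ((q : ℤ) * n + Y ω) - lamzI z ((q : ℤ) * n + Y ω))| ≤
      Q * (((b ^ K : ℕ) : ℝ) / (K : ℝ) ^ U) := by
  obtain ⟨B, hB⟩ := tl_dif b E c hb hE U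
  refine ⟨B, fun Ez => ?_⟩
  obtain ⟨K₀, h0⟩ := hB Ez
  refine ⟨K₀, fun K hK z hz1 hz2 ι Ω p Y hlaw q N hq hN hY Q hQ G hG => ?_⟩
  have h1 := h0 K hK z hz1 hz2 ι Ω p Y hlaw (q * N) (by push_cast; exact hN)
    (fun ω hω => by
      have := hY ω hω
      push_cast
      exact this) Q hQ (fun m => if q ∣ m then G (m / q) else 0) (fun m hm => by
      split_ifs with hd
      · apply hG
        obtain ⟨n, rfl⟩ := hd
        rw [Nat.mul_div_cancel_left n (by omega)]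
        rw [mem_Icc] at hm ⊢
        constructor
        · rcases Nat.eq_zero_or_pos n with h | h
          · rw [h, mul_zero] at hm
            omega
          · exact h
        · exact Nat.le_of_mul_le_mul_left hm.2 (by omega)
      · rw [abs_zero]
        exact hQ.le)
  refine le_trans (le_of_eq ?_) h1
  apply sum_congr rfl
  intro ω _
  congr 2
  have h2 := sum_mult q N hq (fun m => G (m / q) * (lamI ((m : ℤ) + Y ω) - lamzI z ((m : ℤ) + Y ω)))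
  have h3 : ∑ n ∈ Icc 1 N, G n * (lamI ((q : ℤ) * n + Y ω) - lamzI z ((q : ℤ) * n + Y ω)) =
      ∑ n ∈ Icc 1 N, G (q * n / q) * (lamI (((q * n : ℕ) : ℤ) + Y ω) - lamzI z (((q * n : ℕ) : ℤ) + Y ω)) := by
    apply sum_congr rfl
    intro n _
    rw [Nat.mul_div_cancel_left n (by omega)]
    push_cast
    rfl
  rw [h3, ← h2]
  apply sum_congr rfl
  intro m _
  split_ifs
  · rfl
  · rw [zero_mul]

/-- replacing the von Mangoldt function by the sieve model in several of the forms -/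
theorem cf_diffs (s t b E c B : ℕ) (hb : 2 ≤ b) (hE : 1 ≤ E) (U : ℕ) : ∃ B0 : ℕ, ∀ Ez : ℕ, ∃ K₀ : ℕ, ∀ K : ℕ, K₀ ≤ K →
    ∀ (α : Type) (_ : DecidableEq α) (Ω : Fin s → Finset α) (p : Fin s → α → ℝ) (Y : Fin s → α → ℤ) (q : Fin s → ℕ)
    (φ : Fin t → Fin s), Function.Injective φ → (∀ i, 1 ≤ q i) →
    (∀ i, TLaw b E c (2 * (U + s + 2) + 6) K (Ω i) (p i) (Y i)) → (∀ i, ∑ v ∈ Ω i, p i v = 1) →
    ∀ N : ℕ, b ^ K ≤ B * N → N ≤ b ^ K → (∀ i, (q i : ℤ) * N ≤ (b : ℤ) ^ K) →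
    (∀ i, ∀ v ∈ Ω i, -(b : ℤ) ^ K < Y i v ∧ (q i : ℤ) * N + Y i v ≤ (b : ℤ) ^ K) →
    ∀ z : ℕ, Real.log N ^ B0 ≤ z → (z : ℝ) ≤ Real.log N ^ Ez →
    ∀ g : ℕ → ℝ, (∀ n ∈ Icc 1 N, |g n| ≤ Real.log ((b ^ K : ℕ) : ℝ)) →
    ∑ ω ∈ Fintype.piFinset Ω, (∏ i, p i (ω i)) * |∑ n ∈ Icc 1 N, g n *
        (∏ i : Fin t, lamI ((q (φ i) : ℤ) * (n : ℤ) + Y (φ i) (ω (φ i))) -
          ∏ i : Fin t, lamzI z ((q (φ i) : ℤ) * (n : ℤ) + Y (φ i) (ω (φ i))))| ≤ N / Real.log N ^ U := by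
  classical
  obtain ⟨B1, hB1⟩ := cf_dif b E c hb hE (U + s + 2)
  refine ⟨B1 + 1, fun Ez => ?_⟩
  obtain ⟨k1, h1⟩ := hB1 Ez
  obtain ⟨N2, h2⟩ := Vz_inv_small Ez
  obtain ⟨k3, h3⟩ := sizes b B 0 hb ((2 : ℝ) ^ B1 + 1 + s * 2 ^ (s + 1) * B * ((b : ℝ) * ((0 : ℕ) + 1)) ^ (U + s + 2))
  refine ⟨k1 + k3 + N2 + 1, fun K hK α _ Ω p Y q φ hφ hq hlaw hsum N hN1 hN2 hqN hY z hz1 hz2 g hg => ?_⟩
  have hbn : 0 < b := by omega
  obtain ⟨hN0, a1, a2, a3, a4, a5⟩ := h3 K (by omega) N hN1 (by rw [add_zero]; exact hN2)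
  rw [add_zero] at a2 a3
  obtain ⟨LX, hLX⟩ : ∃ LX, LX = Real.log ((b ^ K : ℕ) : ℝ) := ⟨_, rfl⟩
  obtain ⟨L, hL⟩ : ∃ L, L = Real.log (N : ℝ) := ⟨_, rfl⟩
  rw [← hL] at a1 a2 a3 a4 a5 hz1 hz2 ⊢
  rw [← hLX] at a2 a3 hg
  have hbr : (2 : ℝ) ≤ b := by exact_mod_cast hb
  have hc0 : 0 ≤ (s : ℝ) * 2 ^ (s + 1) * B * ((b : ℝ) * ((0 : ℕ) + 1)) ^ (U + s + 2) := by positivity
  have hp2 : (0 : ℝ) < 2 ^ B1 := by positivity
  have hL1 : 1 ≤ L := by linarith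
  have hL0 : 0 < L := by linarith
  have hLX1 : 1 ≤ LX := by linarith
  have hz : 1 ≤ z := by
    have : (1 : ℝ) ≤ z := (one_le_pow₀ hL1).trans hz1
    exact_mod_cast this
  have hzX1 : LX ^ B1 ≤ z := by
    refine le_trans ?_ hz1
    calc LX ^ B1 ≤ (2 * L) ^ B1 := pow_le_pow_left₀ (by linarith) a2 _
      _ = 2 ^ B1 * L ^ B1 := mul_pow _ _ _
      _ ≤ L * L ^ B1 := mul_le_mul_of_nonneg_right (by linarith) (by positivity)
      _ = L ^ (B1 + 1) := by ring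
  have hzX2 : (z : ℝ) ≤ LX ^ Ez := hz2.trans (pow_le_pow_left₀ hL0.le a3 _)
  have hkX : K < b ^ K := Nat.lt_pow_self (by omega)
  have hV := h2 (b ^ K) (by omega) z hz (by rw [← hLX]; exact hzX2)
  rw [← hLX] at hV
  have hX0 : (0 : ℝ) < ((b ^ K : ℕ) : ℝ) := by exact_mod_cast (by omega : 0 < b ^ K)
  have hbe : ((b ^ K : ℕ) : ℤ) = (b : ℤ) ^ K := by push_cast; ring
  have hup : ∀ i, ∀ n ∈ Icc 1 N, ∀ v ∈ Ω i, (((q i : ℤ) * (n : ℤ) + Y i v : ℤ) : ℝ) ≤ ((b ^ K : ℕ) : ℝ) := by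
    intro i n hn v hv
    rw [mem_Icc] at hn
    have h5 := (hY i v hv).2
    rw [← hbe] at h5
    have h6 : (q i : ℤ) * (n : ℤ) + Y i v ≤ ((b ^ K : ℕ) : ℤ) := by
      have h7 : (n : ℤ) ≤ N := by exact_mod_cast hn.2
      have h8 : (q i : ℤ) * (n : ℤ) ≤ (q i : ℤ) * N := mul_le_mul_of_nonneg_left h7 (by positivity)
      linarith
    exact_mod_cast h6
  have hk0 : (0 : ℝ) < K := by exact_mod_cast (by omega : 0 < K)
  have key := tele_w N Ω p (fun i v hv => (hlaw i).nonneg v hv)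
    hsum (fun i n v => lamI ((q i : ℤ) * (n : ℤ) + Y i v))
    (fun i n v => lamzI z ((q i : ℤ) * (n : ℤ) + Y i v))
    LX (((b ^ K : ℕ) : ℝ) / (K : ℝ) ^ (U + s + 2)) hLX1 (by positivity) (by
      intro i n hn v hv
      rw [abs_of_nonneg (lamI_nonneg _), hLX]
      exact lamI_le _ _ (by exact_mod_cast (by omega : 1 ≤ b ^ K)) (hup i n hn v hv)) (by
      intro i n hn v hv
      rw [abs_of_nonneg (lamzI_nonneg _ _)]
      exact (lamzI_le z _).trans hV) (by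
      intro i Q hQ G hG
      exact h1 K (by omega) z (by rw [← hLX]; exact hzX1) (by rw [← hLX]; exact hzX2) α (Ω i) (p i) (Y i) (hlaw i) (q i) N
        (hq i) (hqN i) (hY i) Q hQ G hG)
    (univ.image φ) LX (by linarith) (fun n _ => g n) (by
      intro n hn m _
      exact hg n hn) (by
      intro n m v i _; rfl)
  rw [card_image_of_injective _ hφ, card_univ, Fintype.card_fin] at key
  have hts : t ≤ s := by
    have := Fintype.card_le_of_injective φ hφ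
    rwa [Fintype.card_fin, Fintype.card_fin] at this
  have hnum : (t : ℝ) * (LX * LX ^ t * (((b ^ K : ℕ) : ℝ) / (K : ℝ) ^ (U + s + 2))) ≤ N / L ^ U := by
    refine le_trans ?_ (diff_num L LX K (((b ^ K : ℕ) : ℝ)) N (b * ((0 : ℕ) + 1)) B s U hL1 (by linarith) a2 hk0 a4
      (by positivity) (by exact_mod_cast hN1) hX0.le (Nat.cast_nonneg _) (by positivity) (by linarith))
    have e1 : LX ^ t ≤ LX ^ s := pow_le_pow_right₀ hLX1 hts
    have e2 : (t : ℝ) ≤ s := by exact_mod_cast hts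
    gcongr
  refine le_trans (le_of_eq ?_) (key.trans hnum)
  apply sum_congr rfl
  intro ω _
  congr 2
  apply sum_congr rfl
  intro n _
  rw [prod_image (fun i _ j _ h => hφ h), prod_image (fun i _ j _ h => hφ h)]

end Pool.Agent.W2helper30.CF
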