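import Pool.Agent.W2helper30.CF.Tup
import Pool.Agent.W2helper30.AN.Tup

/-!
# The formula of Hardy and Littlewood for the systems `n, q j n + b j + s j`, `s j` in the families `c j + κ j ⌊U j f j (x j + 1 / i)⌋`
-/

set_option autoImplicit false

namespace Pool.Agent.W2helper30.CF

open Finset
open Pool.Agent.Y885 (TLaw Thin Spec)
open Pool.Agent.W2helper30.AN (Ord Rg vl sh Par AC AC_tlaw AC_sum dig_n)

lemma thin_mono {b E Q Q' k m : ℕ} {S : Finset ℕ} (hQ : Q ≤ Q') (h : Thin b E Q k m S) : Thin b E Q' k m S :=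
  ⟨h.lt, fun i hi => (h.bot i hi).trans (Nat.mul_le_mul_right _ hQ),
    fun j x hj => (h.top j x hj).trans (Nat.mul_le_mul_right _ hQ), h.all.trans (Nat.mul_le_mul_right _ hQ)⟩

lemma tlaw_mono {b E c c' V K : ℕ} {ι : Type} {Ω : Finset ι} {p : ι → ℝ} {Y : ι → ℤ} (hK : 1 ≤ K) (hc : c ≤ c')
    (h : TLaw b E c V K Ω p Y) : TLaw b E c' V K Ω p Y :=
  ⟨h.nonneg, h.le_one, thin_mono (Nat.pow_le_pow_right hK hc) h.thin⟩

open Classical in
/-- the numbers of the members of a product which are mapped to a given point -/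
lemma pi_count {s : ℕ} (I : Fin s → Finset ℕ) (g : Fin s → ℕ → ℕ) (R : Fin s → ℕ) (hg : ∀ j, ∀ i ∈ I j, g j i < R j)
    (Ev : (Fin s → ℕ) → Prop) :
    ∑ ω ∈ Fintype.piFinset (fun j => range (R j)),
      (if Ev ω then ∏ j, (((I j).filter (fun i => g j i = ω j)).card : ℝ) else 0) =
      (((Fintype.piFinset I).filter (fun i => Ev (fun j => g j (i j)))).card : ℝ) := by
  have h1 : ∀ ω : Fin s → ℕ, (((Fintype.piFinset I).filter (fun i => (fun j => g j (i j)) = ω)).card : ℝ) =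
      ∏ j, (((I j).filter (fun i => g j i = ω j)).card : ℝ) := by
    intro ω
    have h2 : (Fintype.piFinset I).filter (fun i => (fun j => g j (i j)) = ω) =
        Fintype.piFinset (fun j => (I j).filter (fun i => g j i = ω j)) := by
      ext i
      simp only [mem_filter, Fintype.mem_piFinset, funext_iff]
      exact ⟨fun h j => ⟨h.1 j, h.2 j⟩, fun h => ⟨fun j => (h j).1, fun j => (h j).2⟩⟩
    rw [h2, Fintype.card_piFinset]
    push_cast
    rfl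
  have h3 := card_eq_sum_card_fiberwise (s := (Fintype.piFinset I).filter (fun i => Ev (fun j => g j (i j))))
    (t := (Fintype.piFinset (fun j => range (R j))).filter Ev) (f := fun i j => g j (i j)) (by
      intro i hi
      simp only [coe_filter, Set.mem_ofPred_eq, Fintype.mem_piFinset, mem_range] at hi ⊢
      exact ⟨fun j => hg j (i j) (hi.1 j), hi.2⟩)
  rw [h3]
  push_cast
  rw [sum_filter]
  refine sum_congr rfl fun ω _ => ?_
  split_ifs with hE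
  · rw [← h1]
    congr 2
    ext i
    simp only [mem_filter]
    constructor
    · rintro ⟨h4, h5⟩
      exact ⟨⟨h4, by rw [h5]; exact hE⟩, h5⟩
    · rintro ⟨⟨h4, _⟩, h5⟩
      exact ⟨h4, h5⟩
  · rfl

open Classical in
/-- the formula for almost all vectors of a product of families -/
theorem fam_tup (t Q0 : ℕ) (ht : 1 ≤ t) : ∃ c₀ : ℝ, 0 < c₀ ∧ ∀ (s : ℕ) (f : Fin s → ℝ → ℝ) (x0 : Fin s → ℝ) (k0 : Fin s → ℕ)
    (_hf : ∀ j, Ord (f j) (x0 j) (k0 j)) (δ0 ε : ℝ) (_hδ0 : 0 < δ0) (_hε : 0 < ε) (_hε2 : ε < 1 / 2)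
    (κ : Fin s → ℤ) (_hκ : ∀ j, κ j ≠ 0) (q : Fin s → ℕ) (_hq : ∀ i, 1 ≤ q i ∧ q i ≤ Q0) (b : Fin s → ℤ) (r B W : ℕ)
    (η : ℝ) (_hη : 0 < η), ∃ M₀ : ℕ, ∀ (M : Fin s → ℕ) (U : Fin s → ℝ) (N : ℕ), (∀ j, M₀ ≤ M j) →
      (∀ j, Rg (k0 j) δ0 ε (M j) (U j)) → (∀ j, U j / (M j : ℝ) ^ k0 j ≤ B * N) →
      (∀ j, (N : ℝ) ≤ U j / (M j : ℝ) ^ k0 j * Real.log (U j) ^ r) → ∀ c : Fin s → ℤ,
      (∀ j, |(c j : ℝ) + κ j * (U j * f j (x0 j))| ≤ B * N) → ∀ φ : Fin t → Fin s, Function.Injective φ →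
      (((Fintype.piFinset fun j => Ioc (M j) (2 * M j)).filter (fun i =>
        (∀ j, 0 ≤ b j + (c j + κ j * vl (f j) (x0 j) (U j) (i j))) ∧
        ¬ HLf c₀ η N (fun a => q (φ a))
          (fun a => b (φ a) + (c (φ a) + κ (φ a) * vl (f (φ a)) (x0 (φ a)) (U (φ a)) (i (φ a)))))).card : ℝ) ≤
        1 / Real.log N ^ W * ∏ j, (M j : ℝ) := by
  obtain ⟨c₀, hc₀, hct⟩ := cf_tuples t Q0 ht
  refine ⟨c₀, hc₀, fun s f x0 k0 hf δ0 ε hδ0 hε hε2 κ hκ q hq b r B W η hη => ?_⟩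
  choose CC D hCC hD hd using fun j => dig_n (hf j) δ0 ε hδ0 r B (κ j)
  obtain ⟨V, hV⟩ : ∃ V, V = 2 * ((W + 1) + 3 + s + 2) + 6 := ⟨_, rfl⟩
  choose C₀ m₀ htl using fun j => AC_tlaw (hf j) δ0 ε hδ0 hε hε2 (r + 2) (κ j) (hκ j) 1 V
  obtain ⟨Dm, hDm⟩ : ∃ Dm, Dm = ∑ j, D j := ⟨_, rfl⟩
  obtain ⟨C, hC⟩ : ∃ C, C = ∑ j, C₀ j := ⟨_, rfl⟩
  have hDj : ∀ j, D j ≤ Dm := fun j => by
    rw [hDm]
    exact single_le_sum (f := D) (fun _ _ => Nat.zero_le _) (mem_univ j)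
  have hCj : ∀ j, C₀ j ≤ C := fun j => by
    rw [hC]
    exact single_le_sum (f := C₀) (fun _ _ => Nat.zero_le _) (mem_univ j)
  have hmj : ∀ j, m₀ j ≤ ∑ j, m₀ j := fun j =>
    single_le_sum (f := m₀) (fun _ _ => Nat.zero_le _) (mem_univ j)
  obtain ⟨κm, hκm⟩ : ∃ κm : ℕ, κm = ∑ j, (κ j).natAbs := ⟨_, rfl⟩
  obtain ⟨bm, hbm⟩ : ∃ bm : ℕ, bm = ∑ j, (b j).natAbs := ⟨_, rfl⟩
  have hκj : ∀ j, (κ j).natAbs ≤ κm := fun j => by
    rw [hκm]
    exact single_le_sum (f := fun j => (κ j).natAbs) (fun _ _ => Nat.zero_le _) (mem_univ j)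
  have hbj : ∀ j, (b j).natAbs ≤ bm := fun j => by
    rw [hbm]
    exact single_le_sum (f := fun j => (b j).natAbs) (fun _ _ => Nat.zero_le _) (mem_univ j)
  obtain ⟨e₀, he₀⟩ : ∃ e₀, e₀ = Q0 + κm + bm + 2 := ⟨_, rfl⟩
  obtain ⟨Bd, hBd⟩ : ∃ Bd : ℕ, Bd = 2 ^ (e₀ + 1) * Dm := ⟨_, rfl⟩
  obtain ⟨K₀, hK₀⟩ := hct s 2 3 C Bd (W + 1) le_rfl (by norm_num) η hη
  choose M₀ hM₀ using fun j => hd j (K₀ + ∑ j, m₀ j + Bd + 1)
  refine ⟨∑ j, M₀ j + 1, fun M U N hM hU hN1 hN2 c hc φ hφ => ?_⟩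
  have hMj : ∀ j, M₀ j ≤ M j := fun j => by
    have := single_le_sum (f := M₀) (fun _ _ => Nat.zero_le _) (mem_univ j)
    have := hM j
    omega
  choose k sg hk g1 g2 g3 g4 hpar hcc using fun j => hM₀ j (M j) (hMj j) (U j) (hU j) N (hN1 j) (hN2 j)
  -- the common scale
  obtain ⟨jt, hjt⟩ : ∃ jt : Fin s, jt = φ ⟨0, by omega⟩ := ⟨_, rfl⟩
  obtain ⟨km, hkm⟩ : ∃ km, km = univ.sup k := ⟨_, rfl⟩
  have hkle : ∀ j, k j ≤ km := fun j => by rw [hkm]; exact le_sup (mem_univ j)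
  obtain ⟨j0, -, hj0⟩ := exists_mem_eq_sup (univ : Finset (Fin s)) ⟨jt, mem_univ _⟩ k
  rw [← hkm] at hj0
  obtain ⟨K, hK⟩ : ∃ K, K = km + e₀ := ⟨_, rfl⟩
  have hKpow : 2 ^ K ≤ Bd * N := by
    calc 2 ^ K = 2 ^ km * 2 ^ e₀ := by rw [hK, pow_add]
      _ ≤ (2 * (D j0 * N)) * 2 ^ e₀ := Nat.mul_le_mul_right _ (by rw [hj0]; exact g4 j0)
      _ ≤ (2 * (Dm * N)) * 2 ^ e₀ := by
          apply Nat.mul_le_mul_right
          apply Nat.mul_le_mul_left
          exact Nat.mul_le_mul_right _ (hDj j0)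
      _ = Bd * N := by rw [hBd, pow_succ]; ring
  have hNlt : ∀ j, N < 2 ^ k j := fun j => by
    have := g3 j
    have h2 : N ≤ D j * N := Nat.le_mul_of_pos_left N (hD j)
    omega
  have hN0 : 0 < N := by
    rcases Nat.eq_zero_or_pos N with h | h
    · rw [h, mul_zero] at hKpow
      have : 0 < 2 ^ K := by positivity
      omega
    · exact h
  have hej : ∀ j, 2 ^ (K - k j) ≤ k j := by
    intro j
    have h1 : 2 ^ (K - k j) * N ≤ Bd * N := by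
      calc 2 ^ (K - k j) * N ≤ 2 ^ (K - k j) * 2 ^ k j := Nat.mul_le_mul_left _ (hNlt j).le
        _ = 2 ^ K := by
            rw [← pow_add]
            congr 1
            have := hkle j
            omega
        _ ≤ Bd * N := hKpow
    have h2 := Nat.le_of_mul_le_mul_right h1 hN0
    have h3 := hk j
    omega
  have hkj0 := hk j0
  have hK1 : 1 ≤ K := by omega
  -- the laws
  obtain ⟨p, hp⟩ : ∃ p : Fin s → ℕ → ℝ, p = fun j v =>
    (((Finset.Ioc (M j) (2 * M j)).filter (fun i => sh (f j) (x0 j) (U j) (sg j) i = v)).card : ℝ) / M j := ⟨_, rfl⟩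
  have hAC : ∀ j, AC (f j) (x0 j) (k0 j) δ0 ε (r + 2) (k j) (p j) := fun j =>
    ⟨M j, U j, sg j, hpar j, fun v => by rw [hp]⟩
  obtain ⟨Y, hY⟩ : ∃ Y : Fin s → ℕ → ℤ, Y = fun j v => ((1 : ℕ) : ℤ) * ((b j + (c j - κ j * sg j)) + κ j * (v : ℕ)) := ⟨_, rfl⟩
  have hlaw : ∀ j, TLaw 2 3 C V K (range (2 ^ k j)) (p j) (Y j) := by
    intro j
    have h1 := htl j (k j) (by have := hk j; have := hmj j; omega) (p j) (hAC j) (K - k j) 1
      (by rw [pow_one]; exact hej j) le_rfl (by rw [pow_one]; have := hk j; omega) (b j + (c j - κ j * sg j)) K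
      (by have := hkle j; omega)
    rw [hY]
    exact tlaw_mono hK1 (hCj j) h1
  have hpow0 : (0 : ℤ) < (2 : ℤ) ^ km := by positivity
  have hYb : ∀ j, ∀ v ∈ range (2 ^ k j), |Y j v| ≤ ((bm : ℤ) + 1 + κm) * (2 : ℤ) ^ km := by
    intro j v hv
    rw [mem_range] at hv
    rw [hY]
    simp only
    rw [Nat.cast_one, one_mul]
    have h1 := hcc j (c j) (hc j)
    have h2 : (2 : ℤ) ^ k j ≤ (2 : ℤ) ^ km := pow_le_pow_right₀ (by norm_num) (hkle j)
    have h3 : |κ j * ((v : ℕ) : ℤ)| ≤ (κm : ℤ) * (2 : ℤ) ^ km := by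
      rw [abs_mul, Int.abs_eq_natAbs (κ j), Nat.abs_cast]
      have hv2 : ((v : ℕ) : ℤ) ≤ (2 : ℤ) ^ km := le_trans (by exact_mod_cast hv.le) h2
      exact mul_le_mul (by exact_mod_cast hκj j) hv2 (Nat.cast_nonneg _) (Nat.cast_nonneg _)
    have h4 : |b j| ≤ (bm : ℤ) * (2 : ℤ) ^ km := by
      have h5 : |b j| ≤ (bm : ℤ) := by
        rw [Int.abs_eq_natAbs]
        exact_mod_cast hbj j
      have h6 : (1 : ℤ) ≤ (2 : ℤ) ^ km := one_le_pow₀ (by norm_num)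
      have h7 : (0 : ℤ) ≤ bm := Nat.cast_nonneg _
      nlinarith
    calc |b j + (c j - κ j * sg j) + κ j * ((v : ℕ) : ℤ)|
        ≤ |b j| + |c j - κ j * sg j| + |κ j * ((v : ℕ) : ℤ)| := abs_add_three _ _ _
      _ ≤ (bm : ℤ) * (2 : ℤ) ^ km + (2 : ℤ) ^ km + (κm : ℤ) * (2 : ℤ) ^ km := add_le_add (add_le_add h4 (h1.trans h2)) h3
      _ = _ := by ring
  have hqN : ∀ j, (q j : ℤ) * N ≤ (Q0 : ℤ) * (2 : ℤ) ^ km := by
    intro j
    have h1 : (N : ℤ) ≤ (2 : ℤ) ^ km := by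
      have h2 : (N : ℤ) ≤ (2 : ℤ) ^ k j := by exact_mod_cast (hNlt j).le
      exact h2.trans (pow_le_pow_right₀ (by norm_num) (hkle j))
    exact mul_le_mul (by exact_mod_cast (hq j).2) h1 (Nat.cast_nonneg _) (Nat.cast_nonneg _)
  have hbig : ((Q0 : ℤ) + bm + 1 + κm) * (2 : ℤ) ^ km + (2 : ℤ) ^ km ≤ (2 : ℤ) ^ K := by
    have h1 : ((e₀ : ℕ) : ℤ) ≤ (2 : ℤ) ^ e₀ := by exact_mod_cast (Nat.lt_two_pow_self).le
    have h2 : ((e₀ : ℕ) : ℤ) * (2 : ℤ) ^ km ≤ (2 : ℤ) ^ e₀ * (2 : ℤ) ^ km := mul_le_mul_of_nonneg_right h1 hpow0.le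
    have h3 : ((e₀ : ℕ) : ℤ) = (Q0 : ℤ) + κm + bm + 2 := by rw [he₀]; push_cast; ring
    rw [h3] at h2
    have h4 : (2 : ℤ) ^ K = (2 : ℤ) ^ e₀ * (2 : ℤ) ^ km := by rw [hK, pow_add]; ring
    rw [h4]
    linarith
  have hQz : (0 : ℤ) ≤ (Q0 : ℤ) * (2 : ℤ) ^ km := by positivity
  have hBz : (0 : ℤ) ≤ ((bm : ℤ) + 1 + κm) * (2 : ℤ) ^ km := by positivity
  have hsum1 : ((Q0 : ℤ) + bm + 1 + κm) * (2 : ℤ) ^ km =
      (Q0 : ℤ) * (2 : ℤ) ^ km + ((bm : ℤ) + 1 + κm) * (2 : ℤ) ^ km := by ring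
  obtain ⟨Ev, hEv⟩ : ∃ Ev : (Fin s → ℕ) → Prop, Ev = fun ω => (∀ j, 0 ≤ Y j (ω j)) ∧
    ¬ HLf c₀ η N (fun a => q (φ a)) (fun a => Y (φ a) (ω (φ a))) := ⟨_, rfl⟩
  have key := hK₀ K (by omega) ℕ inferInstance (fun j => range (2 ^ k j)) p Y q φ hφ hq
    (fun j => by rw [← hV]; exact hlaw j) (fun j => AC_sum (hAC j)) N hKpow
    (by
      have := hNlt j0
      rw [hK, pow_add, hj0]
      have h2 : 1 ≤ 2 ^ e₀ := Nat.one_le_two_pow
      nlinarith)
    (fun j => by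
      have := hqN j
      push_cast
      linarith)
    (fun j v hv => by
      have h1 := hYb j v hv
      have h2 := hqN j
      rw [abs_le] at h1
      push_cast
      constructor
      · linarith [h1.1]
      · linarith [h1.2])
    Ev (Classical.decPred _) (fun ω _ h => by rw [hEv] at h; exact h)
  -- from probabilities to numbers
  have hM0 : ∀ j, (0 : ℝ) < M j := fun j => by exact_mod_cast (hpar j).one
  have hPM : 0 < ∏ j, (M j : ℝ) := prod_pos fun j _ => hM0 j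
  have hcnt := pi_count (fun j => Ioc (M j) (2 * M j)) (fun j => sh (f j) (x0 j) (U j) (sg j)) (fun j => 2 ^ k j)
    (fun j i hi => (hpar j).sh_lt i hi) Ev
  have hkey2 : (((Fintype.piFinset fun j => Ioc (M j) (2 * M j)).filter (fun i =>
      Ev (fun j => sh (f j) (x0 j) (U j) (sg j) (i j)))).card : ℝ) ≤
      1 / (K : ℝ) ^ (W + 1) * ∏ j, (M j : ℝ) := by
    rw [← hcnt, ← div_le_iff₀ hPM, sum_div]
    refine le_trans (le_of_eq ?_) key
    refine sum_congr rfl fun ω _ => ?_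
    by_cases hE : Ev ω
    · rw [if_pos hE, if_pos hE, hp]
      simp only
      rw [prod_div_distrib]
    · rw [if_neg hE, if_neg hE, zero_div]
  refine le_trans (Nat.cast_le.2 (card_le_card fun i hi => ?_)) (hkey2.trans (mul_le_mul_of_nonneg_right ?_ hPM.le))
  · rw [mem_filter] at hi ⊢
    refine ⟨hi.1, ?_⟩
    have hi1 := hi.1
    rw [Fintype.mem_piFinset] at hi1
    have hval : ∀ j, Y j (sh (f j) (x0 j) (U j) (sg j) (i j)) = b j + (c j + κ j * vl (f j) (x0 j) (U j) (i j)) := by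
      intro j
      rw [hY]
      simp only
      rw [Nat.cast_one, one_mul, (hpar j).sh_eq (i j) (hi1 j)]
      ring
    rw [hEv]
    simp only [hval]
    exact hi.2
  · -- the logarithm
    have hKr : (1 : ℝ) ≤ K := by exact_mod_cast hK1
    have hlogN : Real.log N ≤ K := by
      have h1 : (N : ℝ) ≤ 2 ^ K := by
        have h2 := hNlt j0
        have h3 : 2 ^ k j0 ≤ 2 ^ K := Nat.pow_le_pow_right (by norm_num) (by have := hkle j0; omega)
        exact_mod_cast (h2.le.trans h3)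
      have h2 := Real.log_le_log (by exact_mod_cast hN0) h1
      rw [Real.log_pow] at h2
      have := Real.log_two_lt_d9
      nlinarith
    have hlog0 : 0 ≤ Real.log N := Real.log_natCast_nonneg N
    rcases hlog0.lt_or_eq with h0 | h0
    · apply one_div_le_one_div_of_le (by positivity)
      calc Real.log N ^ W ≤ (K : ℝ) ^ W := pow_le_pow_left₀ hlog0 hlogN W
        _ ≤ (K : ℝ) ^ (W + 1) := pow_le_pow_right₀ hKr (by omega)
    · -- `N = 1` does not occur for large `K`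
      exfalso
      have h3 : N = 1 := by
        by_contra h4
        have h5 : (1 : ℝ) < N := by exact_mod_cast (by omega : 1 < N)
        have := Real.log_pos h5
        linarith
      rw [h3, mul_one] at hKpow
      have h6 : K < 2 ^ K := Nat.lt_two_pow_self
      omega

end Pool.Agent.W2helper30.CF
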