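import Pool.Agent.W2helper30.CF.Tup
import Pool.Agent.W93.HD1

/-!
# From the formula for all the subsystems to the exact patterns of the primes
-/

set_option autoImplicit false

namespace Pool.Agent.W2helper30.CF

open Finset
open Pool.Agent.H373R2.T7 (pz Vz mem_pz Vz_pos)
open Pool.Agent.Y820.LF (nuF singF AdmF cntF)

/-- systems which are not admissible have few prime values -/
lemma cnt_nadm {k : ℕ} (C H : Fin k → ℤ) (hC : ∀ i, C i ≠ 0) (N : ℕ) (h : ¬ AdmF C H) : cntF C H N ≤ k := by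
  classical
  unfold AdmF at h
  push Not at h
  obtain ⟨p, hp, h1⟩ := h
  have hall : ∀ r ∈ range p, ∃ i, (p : ℤ) ∣ C i * (r : ℤ) + H i := by
    unfold nuF at h1
    have h2 : (range p).filter (fun r : ℕ => ∃ i, (p : ℤ) ∣ C i * (r : ℤ) + H i) = range p := by
      apply eq_of_subset_of_card_le (filter_subset _ _)
      rw [card_range]
      exact h1
    intro r hr
    rw [← h2, mem_filter] at hr
    exact hr.2
  unfold cntF
  have hsub : (Icc 1 N).filter (fun n : ℕ => ∀ i, (C i * (n : ℤ) + H i).toNat.Prime) ⊆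
      univ.biUnion (fun i => (Icc 1 N).filter (fun n : ℕ => C i * (n : ℤ) + H i = p)) := by
    intro n hn
    rw [mem_filter] at hn
    rw [mem_biUnion]
    obtain ⟨i, hi⟩ := hall (n % p) (mem_range.2 (Nat.mod_lt _ hp.pos))
    refine ⟨i, mem_univ _, ?_⟩
    rw [mem_filter]
    refine ⟨hn.1, ?_⟩
    have h3 : (p : ℤ) ∣ C i * (n : ℤ) + H i := by
      have h4 : (n : ℤ) = ((n % p : ℕ) : ℤ) + p * ((n / p : ℕ) : ℤ) := by exact_mod_cast (Nat.mod_add_div n p).symm
      have h5 : C i * (n : ℤ) + H i = (C i * ((n % p : ℕ) : ℤ) + H i) + p * (C i * ((n / p : ℕ) : ℤ)) := by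
        linear_combination (C i) * h4
      rw [h5]
      exact dvd_add hi (dvd_mul_right _ _)
    have h6 := hn.2 i
    have h7 : 0 < C i * (n : ℤ) + H i := by
      by_contra h8
      rw [Int.toNat_of_nonpos (by omega)] at h6
      exact Nat.not_prime_zero h6
    obtain ⟨v, hv⟩ : ∃ v : ℕ, (v : ℤ) = C i * (n : ℤ) + H i :=
      ⟨(C i * (n : ℤ) + H i).toNat, Int.toNat_of_nonneg h7.le⟩
    rw [← hv] at h3 h6 ⊢
    rw [Int.toNat_natCast] at h6
    have h9 : p ∣ v := by exact_mod_cast h3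
    have := (Nat.prime_dvd_prime_iff_eq hp h6).1 h9
    rw [this]
  refine (card_le_card hsub).trans (card_biUnion_le.trans ?_)
  calc ∑ i : Fin k, ((Icc 1 N).filter (fun n : ℕ => C i * (n : ℤ) + H i = p)).card ≤ ∑ _i : Fin k, 1 := by
        apply sum_le_sum
        intro i _
        rw [card_le_one]
        intro a ha b hb
        rw [mem_filter] at ha hb
        have h3 : C i * ((a : ℤ) - b) = 0 := by
          have := ha.2.trans hb.2.symm
          linarith
        rcases mul_eq_zero.1 h3 with h4 | h4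
        · exact absurd h4 (hC i)
        · omega
    _ = k := by simp

/-- a bound of the partial products of the singular series -/
lemma sing_le {k : ℕ} (C H : Fin (k + 1) → ℤ) (h : ∀ p : ℕ, p.Prime → 1 ≤ nuF C H p) (z : ℕ) :
    singF C H z ≤ ((Vz z)⁻¹) ^ k := by
  unfold singF Vz pz
  rw [← prod_inv_distrib, ← prod_pow]
  have key : ∀ p ∈ (Icc 1 z).filter Nat.Prime, 0 < 1 - 1 / (p : ℝ) ∧ (0 : ℝ) < p ∧ (1 : ℝ) ≤ nuF C H p ∧ (nuF C H p : ℝ) ≤ p := by
    intro p hp
    have hpp := (mem_filter.1 hp).2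
    have hp2 : (2 : ℝ) ≤ p := by exact_mod_cast hpp.two_le
    refine ⟨by rw [sub_pos, div_lt_one (by linarith)]; linarith, by linarith, by exact_mod_cast h p hpp, ?_⟩
    have : nuF C H p ≤ p := by
      unfold nuF
      exact (card_filter_le _ _).trans (by rw [card_range])
    exact_mod_cast this
  apply prod_le_prod
  · intro p hp
    obtain ⟨h1, h2, h3, h4⟩ := key p hp
    apply div_nonneg _ (by positivity)
    rw [sub_nonneg, div_le_one h2]
    exact h4
  · intro p hp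
    obtain ⟨h1, h2, h3, h4⟩ := key p hp
    rw [div_le_iff₀ (by positivity), inv_pow, pow_succ, ← mul_assoc, inv_mul_cancel₀ (by positivity), one_mul]
    have := div_le_div_of_nonneg_right h3 h2.le
    linarith

lemma nu_pos {t : ℕ} (q : Fin t → ℕ) (H : Fin t → ℤ) (p : ℕ) (hp : p.Prime) : 1 ≤ nuF (cf q) (hf H) p := by
  unfold nuF
  rw [Nat.one_le_iff_ne_zero, ← Nat.pos_iff_ne_zero, card_pos]
  refine ⟨0, ?_⟩
  rw [mem_filter, mem_range]
  refine ⟨hp.pos, 0, ?_⟩
  unfold cf hf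
  simp

lemma cf_ne {t : ℕ} (q : Fin t → ℕ) (hq : ∀ i, 1 ≤ q i) (i : Fin (t + 1)) : cf q i ≠ 0 := by
  refine Fin.cases ?_ (fun i => ?_) i
  · unfold cf
    rw [Fin.cons_zero]
    exact one_ne_zero
  · unfold cf
    rw [Fin.cons_succ]
    have := hq i
    exact_mod_cast (by omega : q i ≠ 0)

/-- an upper bound for the number of the prime values -/
lemma all_small (s : ℕ) (c₀ δ : ℝ) (hc₀ : 0 < c₀) (hδ : 0 < δ) : ∃ n₀ : ℕ, ∀ N : ℕ, n₀ ≤ N → ∀ m : ℕ, m ≤ s →
    ∀ (q : Fin m → ℕ) (H : Fin m → ℤ) (ε : ℝ), ε ≤ 1 → (∀ i, 1 ≤ q i) → HLf c₀ ε N q H →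
    (cntF (cf q) (hf H) N : ℝ) ≤ δ * (N / Real.log N ^ m) := by
  obtain ⟨C, hC1, hC⟩ := Pool.Agent.W93.HD.Vz_inv_log
  have hC0 : 0 < C := by linarith
  -- the logarithms
  have hlim : Filter.Tendsto (fun N : ℕ => Real.log (N : ℝ)) Filter.atTop Filter.atTop :=
    Real.tendsto_log_atTop.comp (tendsto_natCast_atTop_atTop (R := ℝ))
  have o1 := (Real.isLittleO_pow_log_id_atTop (n := s)).bound (show (0 : ℝ) < δ / (4 * (3 * C) ^ s) by positivity)
  have o2 := hlim.eventually (o1.and (Filter.eventually_ge_atTop (3 : ℝ)))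
  have o3 := (tendsto_natCast_atTop_atTop (R := ℝ)).eventually
    ((Real.isLittleO_pow_log_id_atTop (n := s)).bound (show (0 : ℝ) < δ / (s + 1) by positivity))
  obtain ⟨n₀, hn₀⟩ := Filter.eventually_atTop.1 (o2.and o3)
  refine ⟨n₀ + 3, fun N hN m hm q H ε hε hq hHL => ?_⟩
  obtain ⟨⟨h1, h2⟩, h3⟩ := hn₀ N (by omega)
  obtain ⟨L, hL⟩ : ∃ L, L = Real.log (N : ℝ) := ⟨_, rfl⟩
  rw [← hL] at h1 h2 h3
  have hN0 : (0 : ℝ) < N := by exact_mod_cast (by omega : 0 < N)
  have hL0 : 0 < L := by linarith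
  have hlogL1 : 1 ≤ Real.log L := by
    rw [Real.le_log_iff_exp_le hL0]
    have := Real.exp_one_lt_d9
    linarith
  rw [id, Real.norm_of_nonneg (by positivity), Real.norm_of_nonneg hL0.le] at h1
  rw [id, Real.norm_of_nonneg (by positivity), Real.norm_of_nonneg hN0.le] at h3
  have hLm : L ^ m ≤ L ^ s := pow_le_pow_right₀ (by linarith) hm
  have hLm0 : 0 < L ^ m := by positivity
  rw [← hL]
  by_cases hadm : AdmF (cf q) (hf H)
  · obtain ⟨S, s1, s2, s3, s4⟩ := hHL hadm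
    rw [← hL] at s3 s4
    have hS0 : 0 < S := by linarith
    obtain ⟨z, hz⟩ : ∃ z, z = ⌈L ^ 2⌉₊ := ⟨_, rfl⟩
    have hz1 : L ^ 2 ≤ z := by rw [hz]; exact Nat.le_ceil _
    have hz2 : (z : ℝ) ≤ L ^ 3 := by
      have e1 : (z : ℝ) < L ^ 2 + 1 := by rw [hz]; exact Nat.ceil_lt_add_one (by positivity)
      have e2 : 1 ≤ L ^ 2 := one_le_pow₀ (by linarith)
      have e3 : L ^ 3 = L ^ 2 * L := by ring
      rw [e3]
      nlinarith
    have hz3 : 3 ≤ z := by
      have : (3 : ℝ) ≤ z := by nlinarith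
      exact_mod_cast this
    have hz0 : (0 : ℝ) < z := by exact_mod_cast (by omega : 0 < z)
    have s5 := s3 z hz1
    have s6 := sing_le (cf q) (hf H) (fun p hp => nu_pos q H p hp) z
    have s7 : (Vz z)⁻¹ ≤ 3 * C * Real.log L := by
      refine (hC z hz3).trans ?_
      have e1 : Real.log z ≤ 3 * Real.log L := by
        have := Real.log_le_log hz0 hz2
        rw [Real.log_pow] at this
        exact_mod_cast this
      calc C * Real.log z ≤ C * (3 * Real.log L) := mul_le_mul_of_nonneg_left e1 hC0.le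
        _ = 3 * C * Real.log L := by ring
    have s8 : ((Vz z)⁻¹) ^ m ≤ (3 * C * Real.log L) ^ s := by
      have e1 : 1 ≤ 3 * C * Real.log L := by nlinarith
      exact (pow_le_pow_left₀ (inv_nonneg.2 (Vz_pos z).le) s7 m).trans (pow_le_pow_right₀ e1 hm)
    have s9 : S ≤ 2 * (3 * C * Real.log L) ^ s := by
      have := (abs_le.1 s5).1
      linarith
    have s10 : 4 * (3 * C * Real.log L) ^ s ≤ δ * L := by
      have e1 : δ / (4 * (3 * C) ^ s) * L * (4 * (3 * C) ^ s) = δ * L := by field_simp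
      have e2 : Real.log L ^ s * (4 * (3 * C) ^ s) ≤ δ / (4 * (3 * C) ^ s) * L * (4 * (3 * C) ^ s) :=
        mul_le_mul_of_nonneg_right h1 (by positivity)
      rw [e1] at e2
      rw [mul_pow]
      linarith
    have hX : 0 < (N : ℝ) / L ^ (m + 1) := by positivity
    have s11 : (cntF (cf q) (hf H) N : ℝ) ≤ 2 * (S * (N / L ^ (m + 1))) := by
      have e1 := (abs_le.1 s4).2
      have e2 : ε * (S * (N / L ^ (m + 1))) ≤ 1 * (S * (N / L ^ (m + 1))) :=
        mul_le_mul_of_nonneg_right hε (by positivity)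
      linarith
    calc (cntF (cf q) (hf H) N : ℝ) ≤ 2 * (S * (N / L ^ (m + 1))) := s11
      _ ≤ 2 * ((2 * (3 * C * Real.log L) ^ s) * (N / L ^ (m + 1))) := by gcongr
      _ = (4 * (3 * C * Real.log L) ^ s) * (N / L ^ (m + 1)) := by ring
      _ ≤ (δ * L) * (N / L ^ (m + 1)) := mul_le_mul_of_nonneg_right s10 hX.le
      _ = δ * (N / L ^ m) := by
          rw [pow_succ]
          field_simp
  · have h4 := cnt_nadm (cf q) (hf H) (cf_ne q hq) N hadm
    have h5 : (cntF (cf q) (hf H) N : ℝ) ≤ s + 1 := by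
      have : cntF (cf q) (hf H) N ≤ s + 1 := by omega
      exact_mod_cast this
    refine h5.trans ?_
    rw [← mul_div_assoc, le_div_iff₀ hLm0]
    have h6 : L ^ s * (s + 1) ≤ δ / (s + 1) * N * (s + 1) := mul_le_mul_of_nonneg_right h3 (by positivity)
    have h7 : δ / (s + 1) * N * (s + 1) = δ * N := by field_simp
    rw [h7] at h6
    calc ((s : ℝ) + 1) * L ^ m ≤ (s + 1) * L ^ s := mul_le_mul_of_nonneg_left hLm (by positivity)
      _ = L ^ s * (s + 1) := by ring
      _ ≤ δ * N := h6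

section Patterns

variable {s : ℕ}

/-- the number of the residues `r` modulo `p` with `p ∣ r` or `p ∣ q j r + H j` for a `j` in `T` -/
def nuT (q : Fin s → ℕ) (H : Fin s → ℤ) (T : Finset (Fin s)) (p : ℕ) : ℕ :=
  ((range p).filter (fun r : ℕ => (p : ℤ) ∣ r ∨ ∃ j ∈ T, (p : ℤ) ∣ (q j : ℤ) * (r : ℤ) + H j)).card

/-- the partial products of the singular series -/
noncomputable def singT (q : Fin s → ℕ) (H : Fin s → ℤ) (T : Finset (Fin s)) (z : ℕ) : ℝ :=
  ∏ p ∈ (Icc 1 z).filter Nat.Prime, (1 - (nuT q H T p : ℝ) / p) / (1 - 1 / (p : ℝ)) ^ (T.card + 1)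

open Classical in
/-- the number of the primes `n ≤ N` for which `q j n + H j` is a prime for all `j` in `T` -/
noncomputable def allT (q : Fin s → ℕ) (H : Fin s → ℤ) (T : Finset (Fin s)) (N : ℕ) : ℕ :=
  ((Icc 1 N).filter (fun n : ℕ => n.Prime ∧ ∀ j ∈ T, ((q j : ℤ) * (n : ℤ) + H j).toNat.Prime)).card

open Classical in
/-- the number of the primes `n ≤ N` for which `q j n + H j` is a prime exactly for the `j` in `T` -/
noncomputable def exactT (q : Fin s → ℕ) (H : Fin s → ℤ) (T : Finset (Fin s)) (N : ℕ) : ℕ :=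
  ((Icc 1 N).filter (fun n : ℕ => n.Prime ∧ ∀ j, ((q j : ℤ) * (n : ℤ) + H j).toNat.Prime ↔ j ∈ T)).card

/-- the coefficients of a subsystem -/
def qs (q : Fin s → ℕ) (T : Finset (Fin s)) : Fin T.card → ℕ := fun a => q (T.orderEmbOfFin rfl a)

/-- the constants of a subsystem -/
def hs (H : Fin s → ℤ) (T : Finset (Fin s)) : Fin T.card → ℤ := fun a => H (T.orderEmbOfFin rfl a)

lemma ex_iff (T : Finset (Fin s)) (P : Fin s → Prop) : (∃ a : Fin T.card, P (T.orderEmbOfFin rfl a)) ↔ ∃ j ∈ T, P j := by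
  constructor
  · rintro ⟨a, ha⟩
    exact ⟨_, T.orderEmbOfFin_mem rfl a, ha⟩
  · rintro ⟨j, hj, hP⟩
    have h1 : j ∈ Set.range (T.orderEmbOfFin rfl) := by
      rw [T.range_orderEmbOfFin rfl]
      exact hj
    obtain ⟨a, ha⟩ := h1
    exact ⟨a, by rw [ha]; exact hP⟩

lemma all_iff (T : Finset (Fin s)) (P : Fin s → Prop) : (∀ a : Fin T.card, P (T.orderEmbOfFin rfl a)) ↔ ∀ j ∈ T, P j := by
  have h := ex_iff T (fun j => ¬ P j)
  constructor
  · intro h1 j hj
    by_contra h2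
    obtain ⟨a, ha⟩ := h.2 ⟨j, hj, h2⟩
    exact ha (h1 a)
  · intro h1 a
    exact h1 _ (T.orderEmbOfFin_mem rfl a)

lemma nu_eq (q : Fin s → ℕ) (H : Fin s → ℤ) (T : Finset (Fin s)) (p : ℕ) :
    nuF (cf (qs q T)) (hf (hs H T)) p = nuT q H T p := by
  unfold nuF nuT
  congr 1
  apply filter_congr
  intro r _
  rw [Fin.exists_fin_succ]
  unfold cf hf
  rw [Fin.cons_zero, Fin.cons_zero, one_mul, add_zero]
  apply or_congr Iff.rfl
  simp only [Fin.cons_succ]
  exact ex_iff T (fun j => (p : ℤ) ∣ (q j : ℤ) * (r : ℤ) + H j)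

lemma cnt_eq_all (q : Fin s → ℕ) (H : Fin s → ℤ) (T : Finset (Fin s)) (N : ℕ) :
    cntF (cf (qs q T)) (hf (hs H T)) N = allT q H T N := by
  unfold cntF allT
  congr 1
  apply filter_congr
  intro n _
  rw [Fin.forall_fin_succ]
  unfold cf hf
  rw [Fin.cons_zero, Fin.cons_zero, one_mul, add_zero, Int.toNat_natCast]
  apply and_congr Iff.rfl
  simp only [Fin.cons_succ]
  exact all_iff T (fun j => ((q j : ℤ) * (n : ℤ) + H j).toNat.Prime)

lemma sing_eqT (q : Fin s → ℕ) (H : Fin s → ℤ) (T : Finset (Fin s)) :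
    singF (cf (qs q T)) (hf (hs H T)) = singT q H T := by
  funext z
  unfold singF singT
  apply prod_congr rfl
  intro p _
  rw [nu_eq]

lemma exact_le (q : Fin s → ℕ) (H : Fin s → ℤ) (T : Finset (Fin s)) (N : ℕ) :
    exactT q H T N ≤ allT q H T N ∧ allT q H T N ≤ exactT q H T N + ∑ j ∈ univ.filter (fun j => j ∉ T), allT q H (insert j T) N := by
  classical
  constructor
  · unfold exactT allT
    apply card_le_card
    intro n hn
    simp only [mem_filter] at hn ⊢
    exact ⟨hn.1, hn.2.1, fun j hj => (hn.2.2 j).2 hj⟩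
  · unfold exactT allT
    refine le_trans (card_le_card (t := ((Icc 1 N).filter (fun n : ℕ => n.Prime ∧ ∀ j, ((q j : ℤ) * (n : ℤ) + H j).toNat.Prime ↔ j ∈ T)) ∪
      (univ.filter (fun j => j ∉ T)).biUnion (fun j => (Icc 1 N).filter (fun n : ℕ => n.Prime ∧
        ∀ i ∈ insert j T, ((q i : ℤ) * (n : ℤ) + H i).toNat.Prime))) ?_) ?_
    · intro n hn
      simp only [mem_filter, mem_union, mem_biUnion] at hn ⊢
      by_cases h : ∀ j, ((q j : ℤ) * (n : ℤ) + H j).toNat.Prime ↔ j ∈ T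
      · left
        exact ⟨hn.1, hn.2.1, h⟩
      · right
        push Not at h
        obtain ⟨j, hj⟩ := h
        rcases hj with ⟨h1, h2⟩ | ⟨h1, h2⟩
        · refine ⟨j, ⟨mem_univ _, h2⟩, hn.1, hn.2.1, fun i hi => ?_⟩
          rw [mem_insert] at hi
          rcases hi with rfl | hi
          · exact h1
          · exact hn.2.2 i hi
        · exact absurd (hn.2.2 j h2) h1
    · refine (card_union_le _ _).trans ?_
      apply Nat.add_le_add (le_of_eq (by congr!))
      refine card_biUnion_le.trans (le_of_eq ?_)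
      apply sum_congr rfl
      intro j _
      congr!

/-- from the formula for all the subsystems to the exact patterns -/
theorem pat (s : ℕ) (c₀ ε : ℝ) (hc₀ : 0 < c₀) (hε : 0 < ε) : ∃ ε' : ℝ, 0 < ε' ∧ ∃ n₀ : ℕ, ∀ N : ℕ, n₀ ≤ N →
    ∀ (q : Fin s → ℕ) (H : Fin s → ℤ), (∀ i, 1 ≤ q i) →
    (∀ T : Finset (Fin s), T.Nonempty → HLf c₀ ε' N (qs q T) (hs H T)) →
    ∀ T : Finset (Fin s), T.Nonempty → (∀ p : ℕ, p.Prime → nuT q H T p < p) →
    ∃ S : ℝ, c₀ ≤ S ∧ Filter.Tendsto (singT q H T) Filter.atTop (nhds S) ∧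
      |(exactT q H T N : ℝ) - S * (N / Real.log N ^ (T.card + 1))| ≤ ε * (S * (N / Real.log N ^ (T.card + 1))) := by
  classical
  obtain ⟨δ, hδ⟩ : ∃ δ, δ = ε * c₀ / (2 * (s + 1)) := ⟨_, rfl⟩
  have hδ0 : 0 < δ := by rw [hδ]; positivity
  obtain ⟨n₀, hn₀⟩ := all_small s c₀ δ hc₀ hδ0
  refine ⟨min (ε / 2) 1, by positivity, n₀ + 2, fun N hN q H hq hall T hT hadm => ?_⟩
  obtain ⟨S, h1, h2, -, h4⟩ := hall T hT (fun p hp => by rw [nu_eq]; exact hadm p hp)
  rw [cnt_eq_all] at h4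
  rw [sing_eqT] at h2
  refine ⟨S, h1, h2, ?_⟩
  obtain ⟨L, hL⟩ : ∃ L, L = Real.log (N : ℝ) := ⟨_, rfl⟩
  have hL0 : 0 < L := by
    rw [hL]
    exact Real.log_pos (by exact_mod_cast (by omega : 1 < N))
  have hN0 : (0 : ℝ) < N := by exact_mod_cast (by omega : 0 < N)
  obtain ⟨a1, a2⟩ := exact_le q H T N
  have a3 : ∀ j ∈ univ.filter (fun j => j ∉ T), (allT q H (insert j T) N : ℝ) ≤ δ * (N / L ^ (T.card + 1)) := by
    intro j hj
    rw [mem_filter] at hj
    have b1 := hn₀ N (by omega) (insert j T).card (by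
      have := card_le_univ (insert j T)
      rw [Fintype.card_fin] at this
      exact this) (qs q (insert j T)) (hs H (insert j T)) (min (ε / 2) 1) (min_le_right _ _)
      (fun i => hq _) (hall (insert j T) (insert_nonempty _ _))
    rw [cnt_eq_all, card_insert_of_notMem hj.2, ← hL] at b1
    exact b1
  have hX : 0 < (N : ℝ) / L ^ (T.card + 1) := by positivity
  have a4 : (∑ j ∈ univ.filter (fun j => j ∉ T), (allT q H (insert j T) N : ℝ)) ≤ ε / 2 * (S * (N / L ^ (T.card + 1))) := by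
    calc (∑ j ∈ univ.filter (fun j => j ∉ T), (allT q H (insert j T) N : ℝ))
        ≤ ∑ _j ∈ univ.filter (fun j => j ∉ T), δ * (N / L ^ (T.card + 1)) := sum_le_sum a3
      _ = ((univ.filter (fun j : Fin s => j ∉ T)).card : ℝ) * (δ * (N / L ^ (T.card + 1))) := by rw [sum_const, nsmul_eq_mul]
      _ ≤ (s + 1) * (δ * (N / L ^ (T.card + 1))) := by
          apply mul_le_mul_of_nonneg_right _ (by positivity)
          have : (univ.filter (fun j : Fin s => j ∉ T)).card ≤ s := (card_le_univ _).trans (by rw [Fintype.card_fin])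
          have h5 : ((univ.filter (fun j : Fin s => j ∉ T)).card : ℝ) ≤ s := by exact_mod_cast this
          linarith
      _ = ε / 2 * (c₀ * (N / L ^ (T.card + 1))) := by
          rw [hδ]
          field_simp
      _ ≤ ε / 2 * (S * (N / L ^ (T.card + 1))) := by gcongr
  have a5 : (allT q H T N : ℝ) ≤ exactT q H T N + ∑ j ∈ univ.filter (fun j => j ∉ T), (allT q H (insert j T) N : ℝ) := by
    exact_mod_cast a2
  have a6 : (exactT q H T N : ℝ) ≤ allT q H T N := by exact_mod_cast a1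
  rw [← hL] at h4 ⊢
  have hS0 : 0 < S := by linarith
  have a7 : min (ε / 2) 1 * (S * (N / L ^ (T.card + 1))) ≤ ε / 2 * (S * (N / L ^ (T.card + 1))) :=
    mul_le_mul_of_nonneg_right (min_le_left _ _) (by positivity)
  rw [abs_le] at h4 ⊢
  constructor
  · linarith [h4.1]
  · have : 0 < ε / 2 * (S * (N / L ^ (T.card + 1))) := by positivity
    linarith [h4.2]

end Patterns

end Pool.Agent.W2helper30.CF
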