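import Pool.Agent.W2helper30.CF.Fam
import Pool.Agent.W2helper30.CF.Pat
import Pool.Agent.W2helper30.AN.Big

/-!
# Exact patterns of the primes among `q j n + b j + s j`, `s j` in the families `c j + κ j ⌊U j f j (x j + 1 / i)⌋`
-/

set_option autoImplicit false

namespace Pool.Agent.W2helper30.CF

open Finset
open Pool.Agent.W2helper30.AN (Ord Rg vl)

lemma HLf_mono {t : ℕ} {c₀ c₁ ε : ℝ} {N : ℕ} {q : Fin t → ℕ} {H : Fin t → ℤ} (h : c₁ ≤ c₀) (h1 : HLf c₀ ε N q H) :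
    HLf c₁ ε N q H := fun hadm => by
  obtain ⟨S, h2, h3⟩ := h1 hadm
  exact ⟨S, h.trans h2, h3⟩

lemma ex_lower (g : ℕ → ℝ) (hg : ∀ t, 1 ≤ t → 0 < g t) (k : ℕ) : ∃ c : ℝ, 0 < c ∧ ∀ t, 1 ≤ t → t ≤ k → c ≤ g t := by
  induction k with
  | zero => exact ⟨1, one_pos, fun t h1 h2 => by omega⟩
  | succ k ih =>
    obtain ⟨c, hc, h⟩ := ih
    refine ⟨min c (g (k + 1)), lt_min hc (hg _ (by omega)), fun t h1 h2 => ?_⟩
    rcases Nat.lt_or_ge t (k + 1) with h3 | h3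
    · exact (min_le_left _ _).trans (h t h1 (by omega))
    · have : t = k + 1 := by omega
      rw [this]
      exact min_le_right _ _

/-- for all nonempty sets `T` of links whose system is admissible, the number of the primes `n ≤ N` for which
`q j n + H j` is a prime exactly for the `j` in `T` is the expected one -/
def PatGood {s : ℕ} (c ε : ℝ) (N : ℕ) (q : Fin s → ℕ) (H : Fin s → ℤ) : Prop :=
  ∀ T : Finset (Fin s), T.Nonempty → (∀ p : ℕ, p.Prime → nuT q H T p < p) →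
    ∃ S : ℝ, c ≤ S ∧ Filter.Tendsto (singT q H T) Filter.atTop (nhds S) ∧
      |(exactT q H T N : ℝ) - S * (N / Real.log N ^ (T.card + 1))| ≤ ε * (S * (N / Real.log N ^ (T.card + 1)))

open Classical in
/-- exact patterns for almost all vectors of a product of families -/
theorem fam_pat (s Q0 : ℕ) (hs1 : 1 ≤ s) : ∃ c₀ : ℝ, 0 < c₀ ∧ ∀ (f : Fin s → ℝ → ℝ) (x0 : Fin s → ℝ) (k0 : Fin s → ℕ)
    (_hf : ∀ j, Ord (f j) (x0 j) (k0 j)) (δ0 ε : ℝ) (_hδ0 : 0 < δ0) (_hε : 0 < ε) (_hε2 : ε < 1 / 2)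
    (κ : Fin s → ℤ) (_hκ : ∀ j, κ j ≠ 0) (q : Fin s → ℕ) (_hq : ∀ i, 1 ≤ q i ∧ q i ≤ Q0) (b : Fin s → ℤ)
    (_hb : ∀ j, 0 ≤ b j) (r B W : ℕ)
    (η : ℝ) (_hη : 0 < η), ∃ M₀ : ℕ, ∀ (M : Fin s → ℕ) (U : Fin s → ℝ) (N : ℕ), (∀ j, M₀ ≤ M j) →
      (∀ j, Rg (k0 j) δ0 ε (M j) (U j)) → (∀ j, U j / (M j : ℝ) ^ k0 j ≤ B * N) →
      (∀ j, (N : ℝ) ≤ U j / (M j : ℝ) ^ k0 j * Real.log (U j) ^ r) → ∀ c : Fin s → ℤ,
      (∀ j, |(c j : ℝ) + κ j * (U j * f j (x0 j))| ≤ B * N) →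
      (((Fintype.piFinset fun j => Ioc (M j) (2 * M j)).filter (fun i =>
        (∀ j, 0 ≤ c j + κ j * vl (f j) (x0 j) (U j) (i j)) ∧
        ¬ PatGood c₀ η N q (fun j => b j + (c j + κ j * vl (f j) (x0 j) (U j) (i j))))).card : ℝ) ≤
        1 / Real.log N ^ W * ∏ j, (M j : ℝ) := by
  choose! cc hcc hfam using fun t (ht : 1 ≤ t) => fam_tup t Q0 ht
  obtain ⟨c₀, hc₀, hlow⟩ := ex_lower cc hcc s
  refine ⟨c₀, hc₀, fun f x0 k0 hf δ0 ε hδ0 hε hε2 κ hκ q hq b hb r B W η hη => ?_⟩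
  obtain ⟨η', hη', n₀, hpat⟩ := pat s c₀ η hc₀ hη
  have hT1 : ∀ T : Finset (Fin s), T.Nonempty → 1 ≤ T.card := fun T hT => hT.card_pos
  choose! M₁ hM₁ using fun (T : Finset (Fin s)) (hT : T.Nonempty) =>
    hfam T.card (hT1 T hT) s f x0 k0 hf δ0 ε hδ0 hε hε2 κ hκ q hq b r B (W + 1) η' hη'
  obtain ⟨n₁, hn₁⟩ := Pool.Agent.H373R2.T7.ev_L' ((2 : ℝ) ^ s)
  obtain ⟨j0, -⟩ : ∃ j0 : Fin s, j0 = ⟨0, by omega⟩ := ⟨_, rfl⟩
  obtain ⟨M₂, hM₂⟩ := Pool.Agent.W2helper30.AN.Rg.big (k0 j0) B (n₀ + n₁ + 2) δ0 ε hδ0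
  refine ⟨∑ T, M₁ T + M₂, fun M U N hM hU hN1 hN2 c hc => ?_⟩
  have hMT : ∀ T : Finset (Fin s), M₁ T ≤ ∑ T, M₁ T := fun T =>
    single_le_sum (f := M₁) (fun _ _ => Nat.zero_le _) (mem_univ T)
  have hN := hM₂ (M j0) (by have := hM j0; omega) (U j0) (hU j0) N (hN1 j0)
  have hLs := hn₁ N (by omega)
  have hL0 : 0 < Real.log (N : ℝ) := Real.log_pos (by exact_mod_cast (by omega : 1 < N))
  have hPM : 0 ≤ ∏ j, (M j : ℝ) := prod_nonneg fun j _ => Nat.cast_nonneg _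
  have hsub : (Fintype.piFinset fun j => Ioc (M j) (2 * M j)).filter (fun i =>
        (∀ j, 0 ≤ c j + κ j * vl (f j) (x0 j) (U j) (i j)) ∧
        ¬ PatGood c₀ η N q (fun j => b j + (c j + κ j * vl (f j) (x0 j) (U j) (i j)))) ⊆
      (univ.filter (fun T : Finset (Fin s) => T.Nonempty)).biUnion (fun T =>
        (Fintype.piFinset fun j => Ioc (M j) (2 * M j)).filter (fun i =>
        (∀ j, 0 ≤ b j + (c j + κ j * vl (f j) (x0 j) (U j) (i j))) ∧
        ¬ HLf (cc T.card) η' N (fun a => q (T.orderEmbOfFin rfl a))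
          (fun a => b (T.orderEmbOfFin rfl a) + (c (T.orderEmbOfFin rfl a) + κ (T.orderEmbOfFin rfl a) *
            vl (f (T.orderEmbOfFin rfl a)) (x0 (T.orderEmbOfFin rfl a)) (U (T.orderEmbOfFin rfl a))
              (i (T.orderEmbOfFin rfl a)))))) := by
    intro i hi
    rw [mem_filter] at hi
    obtain ⟨hi1, hi2, hi3⟩ := hi
    rw [mem_biUnion]
    by_contra hcon
    push Not at hcon
    apply hi3
    refine hpat N (by omega) q _ (fun j => (hq j).1) (fun T hT => ?_)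
    have h1 := hcon T (mem_filter.2 ⟨mem_univ _, hT⟩)
    rw [mem_filter] at h1
    push Not at h1
    have h2 := h1 hi1 (fun j => add_nonneg (hb j) (hi2 j))
    refine HLf_mono (hlow T.card (hT1 T hT) ?_) h2
    have := card_le_univ T
    rw [Fintype.card_fin] at this
    exact this
  refine le_trans (Nat.cast_le.2 (card_le_card hsub)) ?_
  refine le_trans (Nat.cast_le.2 card_biUnion_le) ?_
  rw [Nat.cast_sum]
  calc _ ≤ ∑ _T ∈ univ.filter (fun T : Finset (Fin s) => T.Nonempty), 1 / Real.log N ^ (W + 1) * ∏ j, (M j : ℝ) := by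
        apply sum_le_sum
        intro T hT
        rw [mem_filter] at hT
        exact hM₁ T hT.2 M U N (fun j => by have := hM j; have := hMT T; omega) hU hN1 hN2 c hc
          (T.orderEmbOfFin rfl) (T.orderEmbOfFin rfl).injective
    _ = ((univ.filter (fun T : Finset (Fin s) => T.Nonempty)).card : ℝ) * (1 / Real.log N ^ (W + 1) * ∏ j, (M j : ℝ)) := by
        rw [sum_const, nsmul_eq_mul]
    _ ≤ Real.log N * (1 / Real.log N ^ (W + 1) * ∏ j, (M j : ℝ)) := by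
        apply mul_le_mul_of_nonneg_right _ (by positivity)
        refine le_trans ?_ hLs
        have h1 : (univ.filter (fun T : Finset (Fin s) => T.Nonempty)).card ≤ 2 ^ s := by
          refine (card_filter_le _ _).trans (le_of_eq ?_)
          rw [card_univ, Fintype.card_finset, Fintype.card_fin]
        exact_mod_cast h1
    _ = 1 / Real.log N ^ W * ∏ j, (M j : ℝ) := by
        rw [pow_succ]
        field_simp

/-- the number of the residues for a prime which is larger than the number of the forms -/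
lemma nuT_le {s : ℕ} (q : Fin s → ℕ) (H : Fin s → ℤ) (T : Finset (Fin s)) (p : ℕ) (hp : p.Prime)
    (hq : ∀ j, ¬ (p : ℤ) ∣ (q j : ℤ)) : nuT q H T p ≤ T.card + 1 := by
  classical
  unfold nuT
  have hsub : (range p).filter (fun r : ℕ => (p : ℤ) ∣ r ∨ ∃ j ∈ T, (p : ℤ) ∣ (q j : ℤ) * (r : ℤ) + H j) ⊆
      {0} ∪ T.biUnion (fun j => (range p).filter (fun r : ℕ => (p : ℤ) ∣ (q j : ℤ) * (r : ℤ) + H j)) := by
    intro r hr
    rw [mem_filter, mem_range] at hr
    rw [mem_union, mem_singleton, mem_biUnion]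
    rcases hr.2 with h | ⟨j, hj, h⟩
    · left
      have h2 : p ∣ r := by exact_mod_cast h
      exact Nat.eq_zero_of_dvd_of_lt h2 hr.1
    · right
      exact ⟨j, hj, mem_filter.2 ⟨mem_range.2 hr.1, h⟩⟩
  refine (card_le_card hsub).trans ((card_union_le _ _).trans ?_)
  rw [card_singleton, add_comm]
  apply Nat.add_le_add_right
  refine card_biUnion_le.trans ?_
  calc ∑ j ∈ T, ((range p).filter (fun r : ℕ => (p : ℤ) ∣ (q j : ℤ) * (r : ℤ) + H j)).card ≤ ∑ _j ∈ T, 1 := by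
        apply sum_le_sum
        intro j _
        rw [card_le_one]
        intro a ha b hb
        rw [mem_filter, mem_range] at ha hb
        exact Pool.Agent.Y820.LF.L.root_unique hp (q j) (H j) (hq j) a b ha.1 hb.1 ha.2 hb.2
    _ = T.card := by simp

end Pool.Agent.W2helper30.CF
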