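import Pool.Agent.W2helper30.CF.Fin

/-!
# Exact patterns of the primes for all the vectors near almost all vectors of a product of families
-/

set_option autoImplicit false

namespace Pool.Agent.W2helper30.CF

open Finset
open Pool.Agent.W2helper30.AN (Ord Rg vl)

lemma ev_logN (A : ℕ) : ∃ n₀ : ℕ, ∀ N : ℕ, n₀ ≤ N → 3 ≤ Real.log N ∧ Real.log N ^ A ≤ N := by
  have o1 := (tendsto_natCast_atTop_atTop (R := ℝ)).eventually
    ((Real.isLittleO_pow_log_id_atTop (n := A)).bound (show (0 : ℝ) < 1 by norm_num))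
  obtain ⟨n₀, hn₀⟩ := Filter.eventually_atTop.1 o1
  obtain ⟨n₁, hn₁⟩ := Pool.Agent.H373R2.T7.ev_L' 3
  refine ⟨n₀ + n₁, fun N hN => ⟨hn₁ N (by omega), ?_⟩⟩
  have h1 := hn₀ N (by omega)
  have h2 := hn₁ N (by omega)
  rw [id, Real.norm_of_nonneg (by positivity), Real.norm_of_nonneg (Nat.cast_nonneg _), one_mul] at h1
  exact h1

open Classical in
/-- exact patterns for all the vectors near almost all vectors of a product of families -/
theorem fam_near (s Q0 : ℕ) (hs1 : 1 ≤ s) : ∃ c₀ : ℝ, 0 < c₀ ∧ ∀ (f : Fin s → ℝ → ℝ) (x0 : Fin s → ℝ) (k0 : Fin s → ℕ)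
    (_hf : ∀ j, Ord (f j) (x0 j) (k0 j)) (δ0 ε : ℝ) (_hδ0 : 0 < δ0) (_hε : 0 < ε) (_hε2 : ε < 1 / 2)
    (κ : Fin s → ℤ) (_hκ : ∀ j, κ j ≠ 0) (q : Fin s → ℕ) (_hq : ∀ i, 1 ≤ q i ∧ q i ≤ Q0) (b : Fin s → ℤ)
    (_hb : ∀ j, 0 ≤ b j) (r B W A : ℕ)
    (η : ℝ) (_hη : 0 < η), ∃ M₀ : ℕ, ∀ (M : Fin s → ℕ) (U : Fin s → ℝ) (N : ℕ), (∀ j, M₀ ≤ M j) →
      (∀ j, Rg (k0 j) δ0 ε (M j) (U j)) → (∀ j, U j / (M j : ℝ) ^ k0 j ≤ B * N) →
      (∀ j, (N : ℝ) ≤ U j / (M j : ℝ) ^ k0 j * Real.log (U j) ^ r) → ∀ c : Fin s → ℤ,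
      (∀ j, |(c j : ℝ) + κ j * (U j * f j (x0 j))| ≤ B * N) →
      (((Fintype.piFinset fun j => Ioc (M j) (2 * M j)).filter (fun i =>
        ¬ ∀ h : Fin s → ℤ, (∀ j, |(h j : ℝ) - ((c j + κ j * vl (f j) (x0 j) (U j) (i j) : ℤ) : ℝ)| ≤ Real.log N ^ A) →
          (∀ j, 0 ≤ h j) → PatGood c₀ η N q (fun j => b j + h j))).card : ℝ) ≤
        1 / Real.log N ^ W * ∏ j, (M j : ℝ) := by
  obtain ⟨c₀, hc₀, hfam⟩ := fam_pat s Q0 hs1
  refine ⟨c₀, hc₀, fun f x0 k0 hf δ0 ε hδ0 hε hε2 κ hκ q hq b hb r B W A η hη => ?_⟩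
  obtain ⟨M₁, hM₁⟩ := hfam f x0 k0 hf δ0 ε hδ0 hε hε2 κ hκ q hq b hb r (B + 1) (W + (A + 1) * s) η hη
  obtain ⟨n₀, hn₀⟩ := ev_logN A
  obtain ⟨j0, -⟩ : ∃ j0 : Fin s, j0 = ⟨0, by omega⟩ := ⟨_, rfl⟩
  obtain ⟨M₂, hM₂⟩ := Pool.Agent.W2helper30.AN.Rg.big (k0 j0) B (n₀ + 2) δ0 ε hδ0
  refine ⟨M₁ + M₂, fun M U N hM hU hN1 hN2 c hc => ?_⟩
  have hN := hM₂ (M j0) (by have := hM j0; omega) (U j0) (hU j0) N (hN1 j0)
  obtain ⟨hL3, hLA⟩ := hn₀ N (by omega)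
  obtain ⟨L, hL⟩ : ∃ L, L = Real.log (N : ℝ) := ⟨_, rfl⟩
  rw [← hL] at hL3 hLA ⊢
  have hL0 : 0 < L := by linarith
  have hN0 : (0 : ℝ) ≤ N := Nat.cast_nonneg _
  have hPM : 0 ≤ ∏ j, (M j : ℝ) := prod_nonneg fun j _ => Nat.cast_nonneg _
  obtain ⟨m, hm⟩ : ∃ m : ℕ, m = ⌊L ^ A⌋₊ := ⟨_, rfl⟩
  have hm1 : (m : ℝ) ≤ L ^ A := by rw [hm]; exact Nat.floor_le (by positivity)
  have hsub : (Fintype.piFinset fun j => Ioc (M j) (2 * M j)).filter (fun i =>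
        ¬ ∀ h : Fin s → ℤ, (∀ j, |(h j : ℝ) - ((c j + κ j * vl (f j) (x0 j) (U j) (i j) : ℤ) : ℝ)| ≤ L ^ A) →
          (∀ j, 0 ≤ h j) → PatGood c₀ η N q (fun j => b j + h j)) ⊆
      (Fintype.piFinset fun _ : Fin s => Icc (-(m : ℤ)) m).biUnion (fun t =>
        (Fintype.piFinset fun j => Ioc (M j) (2 * M j)).filter (fun i =>
        (∀ j, 0 ≤ (c j + t j) + κ j * vl (f j) (x0 j) (U j) (i j)) ∧
        ¬ PatGood c₀ η N q (fun j => b j + ((c j + t j) + κ j * vl (f j) (x0 j) (U j) (i j))))) := by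
    intro i hi
    rw [mem_filter] at hi
    obtain ⟨hi1, hi2⟩ := hi
    push Not at hi2
    obtain ⟨h, h1, h2, h3⟩ := hi2
    rw [mem_biUnion]
    obtain ⟨t, ht⟩ : ∃ t : Fin s → ℤ, t = fun j => h j - (c j + κ j * vl (f j) (x0 j) (U j) (i j)) := ⟨_, rfl⟩
    have hht : ∀ j, (c j + t j) + κ j * vl (f j) (x0 j) (U j) (i j) = h j := by
      intro j
      rw [ht]
      ring
    refine ⟨t, ?_, ?_⟩
    · rw [Fintype.mem_piFinset]
      intro j
      have e1 := h1 j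
      have e2 : |(t j : ℝ)| ≤ L ^ A := by
        rw [ht]
        push_cast
        push_cast at e1
        exact e1
      have e3 : (t j).natAbs ≤ m := by
        rw [hm]
        apply Nat.le_floor
        rw [Nat.cast_natAbs, Int.cast_abs]
        exact e2
      rw [mem_Icc]
      omega
    · rw [mem_filter]
      simp only [hht]
      exact ⟨hi1, h2, h3⟩
  refine le_trans (Nat.cast_le.2 (card_le_card hsub)) ?_
  refine le_trans (Nat.cast_le.2 card_biUnion_le) ?_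
  rw [Nat.cast_sum]
  calc _ ≤ ∑ _t ∈ Fintype.piFinset fun _ : Fin s => Icc (-(m : ℤ)) m, 1 / L ^ (W + (A + 1) * s) * ∏ j, (M j : ℝ) := by
        apply sum_le_sum
        intro t ht
        rw [Fintype.mem_piFinset] at ht
        have h1 := hM₁ M U N (fun j => by have := hM j; omega) hU (fun j => (hN1 j).trans (by push_cast; linarith)) hN2
          (fun j => c j + t j) (fun j => by
            have h2 := ht j
            rw [mem_Icc] at h2
            have h3 : |(t j : ℝ)| ≤ N := by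
              have h4 : |t j| ≤ (m : ℤ) := abs_le.2 h2
              have h5 : |(t j : ℝ)| ≤ m := by exact_mod_cast h4
              linarith
            push_cast
            calc |(c j : ℝ) + t j + κ j * (U j * f j (x0 j))| = |((c j : ℝ) + κ j * (U j * f j (x0 j))) + t j| := by
                  congr 1; ring
              _ ≤ |(c j : ℝ) + κ j * (U j * f j (x0 j))| + |(t j : ℝ)| := abs_add_le _ _
              _ ≤ B * N + N := add_le_add (hc j) h3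
              _ = (B + 1) * N := by ring)
        rw [← hL] at h1
        exact h1
    _ = (((2 * m + 1) ^ s : ℕ) : ℝ) * (1 / L ^ (W + (A + 1) * s) * ∏ j, (M j : ℝ)) := by
        rw [sum_const, nsmul_eq_mul, Fintype.card_piFinset]
        congr 2
        rw [prod_const, card_univ, Fintype.card_fin, Int.card_Icc]
        congr 1
        omega
    _ ≤ L ^ ((A + 1) * s) * (1 / L ^ (W + (A + 1) * s) * ∏ j, (M j : ℝ)) := by
        apply mul_le_mul_of_nonneg_right _ (by positivity)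
        push_cast
        rw [pow_mul]
        apply pow_le_pow_left₀ (by positivity)
        have e1 : 1 ≤ L ^ A := one_le_pow₀ (by linarith)
        calc 2 * (m : ℝ) + 1 ≤ 3 * L ^ A := by linarith
          _ ≤ L * L ^ A := mul_le_mul_of_nonneg_right hL3 (by positivity)
          _ = L ^ (A + 1) := by ring
    _ = 1 / L ^ W * ∏ j, (M j : ℝ) := by
        rw [pow_add]
        field_simp

section Intervals

variable {s : ℕ}

/-- the patterns in the intervals `(n + 4, N]` with `C (n + 4) ≤ N` -/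
def IntGood (c ε : ℝ) (C N : ℕ) (q : Fin s → ℕ) (H : Fin s → ℤ) : Prop :=
  ∀ T : Finset (Fin s), T.Nonempty → (∀ p : ℕ, p.Prime → nuT q H T p < p) →
    ∃ S : ℝ, c ≤ S ∧ Filter.Tendsto (singT q H T) Filter.atTop (nhds S) ∧ ∀ n : ℕ, C * (n + 4) ≤ N →
      |(exactT q H T N : ℝ) - exactT q H T (n + 4) - S * (N / Real.log N ^ (T.card + 1))| ≤
        ε * (S * (N / Real.log N ^ (T.card + 1)))

lemma exactT_mono (q : Fin s → ℕ) (H : Fin s → ℤ) (T : Finset (Fin s)) {a b : ℕ} (hab : a ≤ b) :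
    exactT q H T a ≤ exactT q H T b := by
  classical
  unfold exactT
  apply card_le_card
  intro n hn
  simp only [mem_filter, mem_Icc] at hn ⊢
  exact ⟨⟨hn.1.1, hn.1.2.trans hab⟩, hn.2⟩

/-- from two scales to the intervals -/
lemma int_of (s : ℕ) (c ε : ℝ) (hc : 0 < c) (hε : 0 < ε) : ∃ (η : ℝ) (D : ℕ), 0 < η ∧ 2 ≤ D ∧ ∃ n₀ : ℕ, ∀ N : ℕ, n₀ ≤ N →
    ∀ (q : Fin s → ℕ) (H : Fin s → ℤ), PatGood c η N q H → PatGood c η (N / D + 1) q H → IntGood c ε D N q H := by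
  obtain ⟨D, hD⟩ := exists_nat_ge (2 ^ (s + 1) * (8 / ε) + 2)
  have hD2 : (2 : ℝ) ≤ D := by
    have : 0 < 2 ^ (s + 1) * (8 / ε) := by positivity
    linarith
  have hD0 : (0 : ℝ) < D := by linarith
  have hD1 : 2 ≤ D := by exact_mod_cast hD2
  obtain ⟨n₁, hn₁⟩ := ev_logN 2
  obtain ⟨n₂, hn₂⟩ := Pool.Agent.H373R2.T7.ev_L' (2 * Real.log D)
  refine ⟨min (ε / 2) 1, D, by positivity, hD1, n₁ + n₂ + D + 2, fun N hN q H h1 h2 T hT hadm => ?_⟩
  obtain ⟨S, a1, a2, a3⟩ := h1 T hT hadm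
  obtain ⟨S', b1, b2, b3⟩ := h2 T hT hadm
  have hSS : S' = S := tendsto_nhds_unique b2 a2
  rw [hSS] at b3
  have hS0 : 0 < S := by linarith
  refine ⟨S, a1, a2, fun n hn => ?_⟩
  obtain ⟨X, hX⟩ : ∃ X, X = N / D + 1 := ⟨_, rfl⟩
  rw [← hX] at b3
  have hnX : n + 4 ≤ X := by
    have : n + 4 ≤ N / D := (Nat.le_div_iff_mul_le (by omega)).2 (by rw [mul_comm]; exact hn)
    omega
  have hmono : (exactT q H T (n + 4) : ℝ) ≤ exactT q H T X := by exact_mod_cast exactT_mono q H T hnX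
  obtain ⟨hL3, hL2⟩ := hn₁ N (by omega)
  have hLD := hn₂ N (by omega)
  obtain ⟨L, hL⟩ : ∃ L, L = Real.log (N : ℝ) := ⟨_, rfl⟩
  obtain ⟨L', hL'⟩ : ∃ L', L' = Real.log (X : ℝ) := ⟨_, rfl⟩
  rw [← hL] at hL3 hL2 hLD a3 ⊢
  rw [← hL'] at b3
  have hL0 : 0 < L := by linarith
  have hN0 : (0 : ℝ) < N := by exact_mod_cast (by omega : 0 < N)
  have hX1 : (N : ℝ) / D ≤ X := by
    rw [div_le_iff₀ hD0]
    have h3 : N ≤ X * D := by
      have h4 := Nat.div_add_mod N D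
      have h5 := Nat.mod_lt N (by omega : D > 0)
      rw [hX, add_mul, one_mul]
      nlinarith
    exact_mod_cast h3
  have hX2 : (X : ℝ) ≤ 2 * (N / D) := by
    have h3 : (X : ℝ) ≤ N / D + 1 := by
      rw [hX]
      push_cast
      have : ((N / D : ℕ) : ℝ) ≤ (N : ℝ) / D := Nat.cast_div_le
      linarith
    have h4 : 1 ≤ (N : ℝ) / D := by
      rw [le_div_iff₀ hD0, one_mul]
      exact_mod_cast (by omega : D ≤ N)
    linarith
  have hX0 : (0 : ℝ) < X := lt_of_lt_of_le (by positivity) hX1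
  have hLL : L / 2 ≤ L' := by
    have h3 := Real.log_le_log (by positivity) hX1
    rw [Real.log_div hN0.ne' hD0.ne', ← hL, ← hL'] at h3
    linarith
  have hL'0 : 0 < L' := by linarith
  obtain ⟨t, ht⟩ : ∃ t, t = T.card + 1 := ⟨_, rfl⟩
  rw [← ht] at a3 b3 ⊢
  have hts : t ≤ s + 1 := by
    have := card_le_univ T
    rw [Fintype.card_fin] at this
    omega
  obtain ⟨Z, hZ⟩ : ∃ Z, Z = S * (N / L ^ t) := ⟨_, rfl⟩
  have hZ0 : 0 < Z := by rw [hZ]; positivity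
  rw [← hZ] at a3 ⊢
  have hXb : S * (X / L' ^ t) ≤ ε / 4 * Z := by
    have e1 : (X : ℝ) / L' ^ t ≤ (2 * (N / D)) / (L / 2) ^ t := by
      apply div_le_div₀ (by positivity) hX2 (by positivity)
      exact pow_le_pow_left₀ (by positivity) hLL t
    have e2 : (2 * ((N : ℝ) / D)) / (L / 2) ^ t = (2 * 2 ^ t / D) * (N / L ^ t) := by
      rw [div_pow]
      field_simp
    have e3 : (2 : ℝ) * 2 ^ t / D ≤ ε / 4 := by
      rw [div_le_iff₀ hD0]
      have e4 : (2 : ℝ) ^ t ≤ 2 ^ (s + 1) := pow_le_pow_right₀ (by norm_num) hts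
      have e5 : 2 ^ (s + 1) * (8 / ε) ≤ (D : ℝ) := by linarith
      have e6 : ε / 4 * (2 ^ (s + 1) * (8 / ε)) = 2 * 2 ^ (s + 1) := by field_simp; ring
      have e7 : ε / 4 * (2 ^ (s + 1) * (8 / ε)) ≤ ε / 4 * D := mul_le_mul_of_nonneg_left e5 (by positivity)
      linarith
    calc S * (X / L' ^ t) ≤ S * ((2 * 2 ^ t / D) * (N / L ^ t)) := by
          apply mul_le_mul_of_nonneg_left _ hS0.le
          rw [← e2]
          exact e1
      _ ≤ S * (ε / 4 * (N / L ^ t)) := by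
          apply mul_le_mul_of_nonneg_left _ hS0.le
          apply mul_le_mul_of_nonneg_right e3 (by positivity)
      _ = ε / 4 * Z := by rw [hZ]; ring
  have hXc : (exactT q H T X : ℝ) ≤ ε / 2 * Z := by
    have e1 := (abs_le.1 b3).2
    have e2 : min (ε / 2) 1 * (S * (X / L' ^ t)) ≤ 1 * (S * (X / L' ^ t)) :=
      mul_le_mul_of_nonneg_right (min_le_right _ _) (by positivity)
    linarith
  have e3 : min (ε / 2) 1 * Z ≤ ε / 2 * Z := mul_le_mul_of_nonneg_right (min_le_left _ _) hZ0.le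
  have e4 : (0 : ℝ) ≤ exactT q H T (n + 4) := Nat.cast_nonneg _
  rw [abs_le] at a3 ⊢
  constructor
  · linarith [a3.1]
  · linarith [a3.2]

end Intervals

open Classical in
/-- the patterns in the intervals `(n + 4, N]` for all the vectors near almost all vectors of a product of families -/
theorem fam_int (s Q0 : ℕ) (hs1 : 1 ≤ s) : ∃ c₀ : ℝ, 0 < c₀ ∧ ∀ (f : Fin s → ℝ → ℝ) (x0 : Fin s → ℝ) (k0 : Fin s → ℕ)
    (_hf : ∀ j, Ord (f j) (x0 j) (k0 j)) (δ0 ε : ℝ) (_hδ0 : 0 < δ0) (_hε : 0 < ε) (_hε2 : ε < 1 / 2)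
    (κ : Fin s → ℤ) (_hκ : ∀ j, κ j ≠ 0) (q : Fin s → ℕ) (_hq : ∀ i, 1 ≤ q i ∧ q i ≤ Q0) (b : Fin s → ℤ)
    (_hb : ∀ j, 0 ≤ b j) (r B W A : ℕ)
    (η : ℝ) (_hη : 0 < η), ∃ C M₀ : ℕ, ∀ (M : Fin s → ℕ) (U : Fin s → ℝ) (N : ℕ), (∀ j, M₀ ≤ M j) →
      (∀ j, Rg (k0 j) δ0 ε (M j) (U j)) → (∀ j, U j / (M j : ℝ) ^ k0 j ≤ B * N) →
      (∀ j, (N : ℝ) ≤ U j / (M j : ℝ) ^ k0 j * Real.log (U j) ^ r) → ∀ c : Fin s → ℤ,
      (∀ j, |(c j : ℝ) + κ j * (U j * f j (x0 j))| ≤ B * N) →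
      (((Fintype.piFinset fun j => Ioc (M j) (2 * M j)).filter (fun i =>
        ¬ ∀ h : Fin s → ℤ, (∀ j, |(h j : ℝ) - ((c j + κ j * vl (f j) (x0 j) (U j) (i j) : ℤ) : ℝ)| ≤ Real.log N ^ A) →
          (∀ j, 0 ≤ h j) → IntGood c₀ η C N q (fun j => b j + h j))).card : ℝ) ≤
        1 / Real.log N ^ W * ∏ j, (M j : ℝ) := by
  obtain ⟨c₀, hc₀, hfam⟩ := fam_near s Q0 hs1
  refine ⟨c₀, hc₀, fun f x0 k0 hf δ0 ε hδ0 hε hε2 κ hκ q hq b hb r B W A η hη => ?_⟩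
  obtain ⟨η', D, hη', hD, n₁, hint⟩ := int_of s c₀ η hc₀ hη
  obtain ⟨M₁, hM₁⟩ := hfam f x0 k0 hf δ0 ε hδ0 hε hε2 κ hκ q hq b hb r (B * D) (W + 1) (A + 1) η' hη'
  obtain ⟨n₂, hn₂⟩ := ev_logN 1
  obtain ⟨n₃, hn₃⟩ := Pool.Agent.H373R2.T7.ev_L' (2 * Real.log D + 2 ^ (W + 2) + 2 ^ (A + 2))
  obtain ⟨j0, -⟩ : ∃ j0 : Fin s, j0 = ⟨0, by omega⟩ := ⟨_, rfl⟩
  obtain ⟨M₂, hM₂⟩ := Pool.Agent.W2helper30.AN.Rg.big (k0 j0) B (n₁ + n₂ + n₃ + 2) δ0 ε hδ0
  refine ⟨D, M₁ + M₂, fun M U N hM hU hN1 hN2 c hc => ?_⟩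
  have hN := hM₂ (M j0) (by have := hM j0; omega) (U j0) (hU j0) N (hN1 j0)
  obtain ⟨hL3, -⟩ := hn₂ N (by omega)
  have hLD := hn₃ N (by omega)
  obtain ⟨X, hX⟩ : ∃ X, X = N / D + 1 := ⟨_, rfl⟩
  have hDr : (1 : ℝ) ≤ D := by exact_mod_cast (by omega : 1 ≤ D)
  have hD0 : (0 : ℝ) < D := by linarith
  have hN0 : (0 : ℝ) < N := by exact_mod_cast (by omega : 0 < N)
  have hB0 : (0 : ℝ) ≤ B := Nat.cast_nonneg _
  have hNX : N ≤ D * X := by
    have h4 := Nat.div_add_mod N D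
    have h5 := Nat.mod_lt N (by omega : D > 0)
    rw [hX, mul_add, mul_one]
    omega
  have hXN : X ≤ N := by
    have h4 : N / D ≤ N / 2 := Nat.div_le_div_left hD (by norm_num)
    have h5 : N / 2 + 1 ≤ N := by omega
    rw [hX]
    exact (Nat.add_le_add_right h4 1).trans h5
  have hX0 : (0 : ℝ) < X := by
    have : 0 < X := by rw [hX]; exact Nat.succ_pos _
    exact_mod_cast this
  have hNXr : (N : ℝ) ≤ D * X := by exact_mod_cast hNX
  have hXNr : (X : ℝ) ≤ N := by exact_mod_cast hXN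
  obtain ⟨L, hL⟩ : ∃ L, L = Real.log (N : ℝ) := ⟨_, rfl⟩
  obtain ⟨L', hL'⟩ : ∃ L', L' = Real.log (X : ℝ) := ⟨_, rfl⟩
  have hlD : 0 ≤ Real.log (D : ℝ) := Real.log_nonneg (by exact_mod_cast (by omega : 1 ≤ D))
  have hLL : L / 2 ≤ L' := by
    have h3 : Real.log N ≤ Real.log D + Real.log X := by
      rw [← Real.log_mul hD0.ne' hX0.ne']
      exact Real.log_le_log hN0 hNXr
    have : (0 : ℝ) < 2 ^ (W + 2) := by positivity
    have : (0 : ℝ) < 2 ^ (A + 2) := by positivity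
    rw [hL, hL']
    linarith
  have hL0 : 0 < L := by rw [hL]; linarith
  have hLW : 1 + (2 : ℝ) ^ (W + 1) ≤ L := by
    have h3 : (2 : ℝ) ^ (W + 2) = 2 * 2 ^ (W + 1) := by ring
    have h4 : (1 : ℝ) ≤ 2 ^ (W + 1) := one_le_pow₀ (by norm_num)
    have : (0 : ℝ) < 2 ^ (A + 2) := by positivity
    rw [hL]
    linarith
  have hLA : (2 : ℝ) ^ (A + 1) ≤ L := by
    have h3 : (2 : ℝ) ^ (A + 2) = 2 * 2 ^ (A + 1) := by ring
    have h4 : (0 : ℝ) < 2 ^ (A + 1) := by positivity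
    have : (0 : ℝ) < 2 ^ (W + 2) := by positivity
    rw [hL]
    linarith
  have hrad1 : L ^ A ≤ L ^ (A + 1) := pow_le_pow_right₀ (by rw [hL]; linarith) (by omega)
  have hrad2 : L ^ A ≤ L' ^ (A + 1) := by
    calc L ^ A = 2 ^ (A + 1) * L ^ A / 2 ^ (A + 1) := by field_simp
      _ ≤ L * L ^ A / 2 ^ (A + 1) := by gcongr
      _ = (L / 2) ^ (A + 1) := by rw [div_pow]; ring
      _ ≤ L' ^ (A + 1) := pow_le_pow_left₀ (by positivity) hLL _
  have hBN : (B : ℝ) * N ≤ (B * D : ℕ) * N := by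
    push_cast
    nlinarith [mul_nonneg hB0 hN0.le]
  have hBX : (B : ℝ) * N ≤ (B * D : ℕ) * X := by
    push_cast
    calc (B : ℝ) * N ≤ B * (D * X) := mul_le_mul_of_nonneg_left hNXr hB0
      _ = B * D * X := by ring
  have h1 := hM₁ M U N (fun j => by have := hM j; omega) hU (fun j => (hN1 j).trans hBN) hN2 c
    (fun j => (hc j).trans hBN)
  have h2 := hM₁ M U X (fun j => by have := hM j; omega) hU (fun j => (hN1 j).trans hBX)
    (fun j => hXNr.trans (hN2 j)) c (fun j => (hc j).trans hBX)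
  rw [← hL] at h1 ⊢
  rw [← hL'] at h2
  have hPM : 0 ≤ ∏ j, (M j : ℝ) := prod_nonneg fun j _ => Nat.cast_nonneg _
  refine le_trans (Nat.cast_le.2 (card_le_card (t :=
    (Fintype.piFinset fun j => Ioc (M j) (2 * M j)).filter (fun i =>
        ¬ ∀ h : Fin s → ℤ, (∀ j, |(h j : ℝ) - ((c j + κ j * vl (f j) (x0 j) (U j) (i j) : ℤ) : ℝ)| ≤ L ^ (A + 1)) →
          (∀ j, 0 ≤ h j) → PatGood c₀ η' N q (fun j => b j + h j)) ∪
    (Fintype.piFinset fun j => Ioc (M j) (2 * M j)).filter (fun i =>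
        ¬ ∀ h : Fin s → ℤ, (∀ j, |(h j : ℝ) - ((c j + κ j * vl (f j) (x0 j) (U j) (i j) : ℤ) : ℝ)| ≤ L' ^ (A + 1)) →
          (∀ j, 0 ≤ h j) → PatGood c₀ η' X q (fun j => b j + h j))) ?_)) ?_
  · intro i hi
    simp only [mem_filter, mem_union] at hi ⊢
    obtain ⟨hi1, hi2⟩ := hi
    by_contra hcon
    push Not at hcon
    obtain ⟨g1, g2⟩ := hcon
    apply hi2
    intro h hh hh0
    have g3 := g1 hi1 h (fun j => (hh j).trans hrad1) hh0
    have g4 := g2 hi1 h (fun j => (hh j).trans hrad2) hh0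
    rw [hX] at g4
    exact hint N (by omega) q (fun j => b j + h j) g3 g4
  · refine le_trans (Nat.cast_le.2 (card_union_le _ _)) ?_
    rw [Nat.cast_add]
    refine le_trans (add_le_add h1 h2) ?_
    have e1 : 1 / L' ^ (W + 1) ≤ 2 ^ (W + 1) / L ^ (W + 1) := by
      have e2 : (L / 2) ^ (W + 1) ≤ L' ^ (W + 1) := pow_le_pow_left₀ (by positivity) hLL _
      calc 1 / L' ^ (W + 1) ≤ 1 / (L / 2) ^ (W + 1) := one_div_le_one_div_of_le (by positivity) e2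
        _ = 2 ^ (W + 1) / L ^ (W + 1) := by rw [div_pow]; field_simp
    calc 1 / L ^ (W + 1) * ∏ j, (M j : ℝ) + 1 / L' ^ (W + 1) * ∏ j, (M j : ℝ)
        ≤ 1 / L ^ (W + 1) * ∏ j, (M j : ℝ) + 2 ^ (W + 1) / L ^ (W + 1) * ∏ j, (M j : ℝ) :=
          add_le_add le_rfl (mul_le_mul_of_nonneg_right e1 hPM)
      _ = (1 + 2 ^ (W + 1)) / L ^ (W + 1) * ∏ j, (M j : ℝ) := by ring
      _ ≤ L / L ^ (W + 1) * ∏ j, (M j : ℝ) := by
          apply mul_le_mul_of_nonneg_right _ hPM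
          exact div_le_div_of_nonneg_right hLW (by positivity)
      _ = 1 / L ^ W * ∏ j, (M j : ℝ) := by
          congr 1
          rw [pow_succ]
          field_simp

end Pool.Agent.W2helper30.CF
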