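import Pool.Agent.W2helper30.CF.Dif
import Pool.Agent.Y820.LF.L
import Pool.Agent.Y820.LF.M0
import Pool.Agent.Y820.LF.Tr

/-!
# The formula of Hardy and Littlewood for the systems `n, q i n + Y i` with random constants `Y i`
-/

set_option autoImplicit false

namespace Pool.Agent.W2helper30.CF

open Finset
open Pool.Agent.H807R2.Dav
open Pool.Agent.H373R2.T7
open Pool.Agent.W93.DG
open Pool.Agent.W93.RD
open Pool.Agent.Y885 (TLaw tl_dif tl_point)
open Pool.Agent.W93.TD (sizes diff_num tele_w avg_w total_w)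
open Pool.Agent.Y820.LF (singF AdmF cntF PosF t_lim t_main1 t_tr)

/-- the coefficients of the system `n, q i n + H i` -/
def cf {t : ℕ} (q : Fin t → ℕ) : Fin (t + 1) → ℤ := Fin.cons 1 fun i => (q i : ℤ)

/-- the constants of the system `n, q i n + H i` -/
def hf {t : ℕ} (H : Fin t → ℤ) : Fin (t + 1) → ℤ := Fin.cons 0 H

/-- the formula of Hardy and Littlewood for the system `n, q i n + H i`, if it is admissible -/
def HLf {t : ℕ} (c₀ ε : ℝ) (N : ℕ) (q : Fin t → ℕ) (H : Fin t → ℤ) : Prop :=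
  AdmF (cf q) (hf H) → ∃ S : ℝ, c₀ ≤ S ∧ Filter.Tendsto (singF (cf q) (hf H)) Filter.atTop (nhds S) ∧
    (∀ z : ℕ, Real.log N ^ 2 ≤ z → |singF (cf q) (hf H) z - S| ≤ 1 / 2 * S) ∧
    |(cntF (cf q) (hf H) N : ℝ) - S * (N / Real.log N ^ (t + 1))| ≤ ε * (S * (N / Real.log N ^ (t + 1)))

lemma lamI_nat (n : ℕ) (hn : 1 ≤ n) : lamI ((n : ℕ) : ℤ) = ArithmeticFunction.vonMangoldt n := by
  unfold lamI
  rw [if_pos (by exact_mod_cast hn), Int.toNat_natCast]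

/-- the deterministic part -/
lemma cf_det (t Q0 : ℕ) (ht : 1 ≤ t) : ∃ c₀ : ℝ, 0 < c₀ ∧ ∀ (B E1 : ℕ) (ε : ℝ), 0 < ε → ∃ δ : ℝ, 0 < δ ∧ ∃ n₀ : ℕ, ∀ N : ℕ, n₀ ≤ N →
    ∀ z : ℕ, Real.log N ^ 2 ≤ z → (z : ℝ) ≤ Real.log N ^ E1 → ∀ (q : Fin t → ℕ) (H : Fin t → ℤ),
    (∀ i, 1 ≤ q i ∧ q i ≤ Q0) → (∀ i, 0 ≤ H i) → (∀ i, H i ≤ (B : ℤ) * N) → (∀ i, H i ≠ 0) →
    (∀ i j, i ≠ j → (q i : ℤ) * H j ≠ q j * H i) →
    |∑ n ∈ Icc 1 N, ArithmeticFunction.vonMangoldt n * (∏ i, lamI ((q i : ℤ) * (n : ℤ) + H i) -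
      ∏ i, lamzI z ((q i : ℤ) * (n : ℤ) + H i))| ≤ δ * N → HLf c₀ ε N q H := by
  obtain ⟨c₀, hc₀, hL⟩ := t_lim (t + 1) (Q0 + 1) (by omega)
  refine ⟨c₀, hc₀, fun B E1 ε hε => ?_⟩
  obtain ⟨d0, hd0, n1, hT⟩ := t_tr (t + 1) (Q0 + 1) B (by omega) c₀ ε hc₀ hε
  obtain ⟨n2, h2⟩ := hL B (min (d0 / 4) (1 / 2)) (lt_min (by positivity) (by norm_num))
  obtain ⟨n3, h3⟩ := t_main1 t E1 1 ht
  obtain ⟨n4, h4⟩ := ev_L' (4 / (d0 * c₀) + 1)
  refine ⟨d0 * c₀ / 4, by positivity, n1 + n2 + n3 + n4 + 1, fun N hN z hz1 hz2 q H hq hH0 hHB hHne hne hsm hadm => ?_⟩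
  have hN1 : 1 ≤ N := by omega
  have hNr : (0 : ℝ) < N := by exact_mod_cast hN1
  have hL' := h4 N (by omega)
  have hdc : 0 < 4 / (d0 * c₀) := by positivity
  have hL1 : 1 ≤ Real.log (N : ℝ) := by linarith
  have hz : 1 ≤ z := by
    have : (1 : ℝ) ≤ z := (one_le_pow₀ hL1).trans hz1
    exact_mod_cast this
  have hC : ∀ i, cf q i ≠ 0 ∧ |cf q i| ≤ ((Q0 + 1 : ℕ) : ℤ) := by
    intro i
    refine Fin.cases ?_ (fun i => ?_) i
    · unfold cf
      rw [Fin.cons_zero]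
      refine ⟨one_ne_zero, ?_⟩
      rw [abs_one]
      push_cast
      linarith
    · unfold cf
      rw [Fin.cons_succ, Nat.abs_cast]
      obtain ⟨g1, g2⟩ := hq i
      refine ⟨by exact_mod_cast (by omega : q i ≠ 0), by exact_mod_cast (by omega : q i ≤ Q0 + 1)⟩
  have hHb : ∀ i, |hf H i| ≤ (B : ℤ) * N := by
    intro i
    refine Fin.cases ?_ (fun i => ?_) i
    · unfold hf
      rw [Fin.cons_zero, abs_zero]
      positivity
    · unfold hf
      rw [Fin.cons_succ, abs_of_nonneg (hH0 i)]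
      exact hHB i
  have hdet : ∀ i j, i ≠ j → cf q i * hf H j ≠ cf q j * hf H i := by
    intro i j
    refine Fin.cases ?_ (fun i => ?_) i
    · refine Fin.cases (fun h => absurd rfl h) (fun j _ => ?_) j
      unfold cf hf
      rw [Fin.cons_zero, Fin.cons_zero, Fin.cons_succ, one_mul, mul_zero]
      exact hHne j
    · refine Fin.cases (fun _ => ?_) (fun j h => ?_) j
      · unfold cf hf
        rw [Fin.cons_zero, Fin.cons_zero, Fin.cons_succ, one_mul, mul_zero]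
        exact (hHne i).symm
      · unfold cf hf
        rw [Fin.cons_succ, Fin.cons_succ, Fin.cons_succ, Fin.cons_succ]
        exact hne i j (fun h' => h (by rw [h']))
  have hpos : PosF (cf q) (hf H) N := by
    intro i
    have hNz : (1 : ℤ) ≤ N := by exact_mod_cast hN1
    refine Fin.cases ?_ (fun i => ?_) i
    · unfold cf hf
      rw [Fin.cons_zero, Fin.cons_zero]
      constructor <;> linarith
    · unfold cf hf
      rw [Fin.cons_succ, Fin.cons_succ]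
      have h5 : (1 : ℤ) ≤ q i := by exact_mod_cast (hq i).1
      have h6 := hH0 i
      refine ⟨by linarith, ?_⟩
      have : (1 : ℤ) * 1 ≤ q i * (N : ℤ) := mul_le_mul h5 hNz (by norm_num) (by linarith)
      linarith
  have hpos' : PosF (fun i => (q i : ℤ)) H N := by
    intro i
    have := hpos i.succ
    unfold cf hf at this
    rw [Fin.cons_succ, Fin.cons_succ] at this
    exact this
  obtain ⟨S, hS1, hS2, hS3⟩ := h2 N (by omega) (cf q) (hf H) hC hHb hdet hadm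
  have hS0 : 0 < S := by linarith
  have hm := h3 N (by omega) z hz hz2 (fun i => (q i : ℤ)) H hpos' hadm
  rw [pow_one] at hm
  have hs := hS3 z hz1
  have hprod : ∀ n ∈ Icc 1 N, ∏ i, lamI (cf q i * (n : ℤ) + hf H i) =
      ArithmeticFunction.vonMangoldt n * ∏ i, lamI ((q i : ℤ) * (n : ℤ) + H i) := by
    intro n hn
    rw [mem_Icc] at hn
    rw [Fin.prod_univ_succ]
    unfold cf hf
    rw [Fin.cons_zero, Fin.cons_zero, one_mul, add_zero, lamI_nat n hn.1]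
    congr 1
  have hkey : |∑ n ∈ Icc 1 N, ∏ i, lamI (cf q i * (n : ℤ) + hf H i) - S * N| ≤ d0 * (S * N) := by
    rw [sum_congr rfl hprod]
    have e1 : ∑ n ∈ Icc 1 N, ArithmeticFunction.vonMangoldt n * ∏ i, lamI ((q i : ℤ) * (n : ℤ) + H i) - S * N =
        ∑ n ∈ Icc 1 N, ArithmeticFunction.vonMangoldt n * (∏ i, lamI ((q i : ℤ) * (n : ℤ) + H i) -
          ∏ i, lamzI z ((q i : ℤ) * (n : ℤ) + H i)) +
        (∑ n ∈ Icc 1 N, ArithmeticFunction.vonMangoldt n * ∏ i, lamzI z ((q i : ℤ) * (n : ℤ) + H i) -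
          singF (cf q) (hf H) z * N) + (singF (cf q) (hf H) z - S) * N := by
      simp only [mul_sub, sum_sub_distrib]
      ring
    rw [e1]
    have e2 : N / Real.log (N : ℝ) ≤ d0 / 4 * (S * N) := by
      rw [div_le_iff₀ (by linarith)]
      have e3 : 4 / (d0 * c₀) ≤ Real.log (N : ℝ) := by linarith
      rw [div_le_iff₀ (by positivity)] at e3
      have e4 : d0 * c₀ ≤ d0 * S := mul_le_mul_of_nonneg_left hS1 hd0.le
      have e5 : 4 ≤ Real.log (N : ℝ) * (d0 * S) :=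
        e3.trans (mul_le_mul_of_nonneg_left e4 (by linarith))
      nlinarith
    have e3 : |(singF (cf q) (hf H) z - S) * N| ≤ d0 / 4 * (S * N) := by
      rw [abs_mul, abs_of_pos hNr]
      calc |singF (cf q) (hf H) z - S| * N ≤ (d0 / 4 * S) * N := by
            apply mul_le_mul_of_nonneg_right _ hNr.le
            exact hs.trans (mul_le_mul_of_nonneg_right (min_le_left _ _) hS0.le)
        _ = d0 / 4 * (S * N) := by ring
    have e4 : d0 * c₀ / 4 * N ≤ d0 / 4 * (S * N) := by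
      have : c₀ * N ≤ S * N := mul_le_mul_of_nonneg_right hS1 hNr.le
      nlinarith
    calc _ ≤ |∑ n ∈ Icc 1 N, ArithmeticFunction.vonMangoldt n * (∏ i, lamI ((q i : ℤ) * (n : ℤ) + H i) -
          ∏ i, lamzI z ((q i : ℤ) * (n : ℤ) + H i))| +
        |∑ n ∈ Icc 1 N, ArithmeticFunction.vonMangoldt n * ∏ i, lamzI z ((q i : ℤ) * (n : ℤ) + H i) -
          singF (cf q) (hf H) z * N| + |(singF (cf q) (hf H) z - S) * N| := abs_add_three _ _ _
      _ ≤ d0 / 4 * (S * N) + d0 / 4 * (S * N) + d0 / 4 * (S * N) :=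
          add_le_add (add_le_add (hsm.trans e4) (hm.trans e2)) e3
      _ ≤ d0 * (S * N) := by
          have : 0 < d0 * (S * N) := by positivity
          linarith
  refine ⟨S, hS1, hS2, fun z' hz' => (hS3 z' hz').trans (mul_le_mul_of_nonneg_right (min_le_right _ _) hS0.le), ?_⟩
  exact hT N (by omega) (cf q) (hf H) hC hHb hpos S hS1 hkey

/-- the formula for almost all vectors of constants -/
theorem cf_tuples (t Q0 : ℕ) (ht : 1 ≤ t) : ∃ c₀ : ℝ, 0 < c₀ ∧ ∀ (s b E c B U : ℕ), 2 ≤ b → 1 ≤ E → ∀ ε : ℝ, 0 < ε →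
    ∃ K₀ : ℕ, ∀ K : ℕ, K₀ ≤ K →
    ∀ (α : Type) (_ : DecidableEq α) (Ω : Fin s → Finset α) (p : Fin s → α → ℝ) (Y : Fin s → α → ℤ) (q : Fin s → ℕ)
    (φ : Fin t → Fin s), Function.Injective φ → (∀ i, 1 ≤ q i ∧ q i ≤ Q0) →
    (∀ i, TLaw b E c (2 * (U + 3 + s + 2) + 6) K (Ω i) (p i) (Y i)) → (∀ i, ∑ v ∈ Ω i, p i v = 1) →
    ∀ N : ℕ, b ^ K ≤ B * N → N ≤ b ^ K → (∀ i, (q i : ℤ) * N ≤ (b : ℤ) ^ K) →
    (∀ i, ∀ v ∈ Ω i, -(b : ℤ) ^ K < Y i v ∧ (q i : ℤ) * N + Y i v ≤ (b : ℤ) ^ K) →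
    ∀ Ev : (Fin s → α) → Prop, ∀ _hdec : DecidablePred Ev,
    (∀ ω ∈ Fintype.piFinset Ω, Ev ω → (∀ i, 0 ≤ Y i (ω i)) ∧
      ¬ HLf c₀ ε N (fun i => q (φ i)) (fun i => Y (φ i) (ω (φ i)))) →
    ∑ ω ∈ Fintype.piFinset Ω, (if Ev ω then ∏ i, p i (ω i) else 0) ≤ 1 / (K : ℝ) ^ U := by
  classical
  obtain ⟨c₀, hc₀, hdet⟩ := cf_det t Q0 ht
  refine ⟨c₀, hc₀, fun s b E c B U hb hE ε hε => ?_⟩
  obtain ⟨B0, hB0⟩ := cf_diffs s t b E c B hb hE (U + 3)
  obtain ⟨E1, hE1⟩ : ∃ E1, E1 = B0 + 2 := ⟨_, rfl⟩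
  obtain ⟨k1, h1⟩ := hB0 (E1 + 1)
  obtain ⟨δ, hδ, n2, h2⟩ := hdet B (E1 + 1) ε hε
  obtain ⟨k3, h3⟩ := sizes b B 0 hb 2
  obtain ⟨k4, hk4⟩ := exists_nat_ge ((s : ℝ) + s * s + 4 ^ (U + 3) / δ)
  obtain ⟨k5, h5⟩ := tl_point b hb E c (U + 3) hE
  refine ⟨k1 + k3 + k4 + k5 + B * n2 + 1, fun K hK α hα Ω p Y q φ hφ hq hlaw hsum N hN1 hN2 hqN hY Ev _ hEv => ?_⟩
  have hbn : 0 < b := by omega
  obtain ⟨hN0, a1, a2, a3, a4, a5⟩ := h3 K (by omega) N hN1 (by rw [add_zero]; exact hN2)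
  rw [add_zero] at a2 a3
  obtain ⟨L, hL⟩ : ∃ L, L = Real.log (N : ℝ) := ⟨_, rfl⟩
  rw [← hL] at a1 a3 a5
  have hL0 : 0 < L := by linarith
  have hNr : (0 : ℝ) < N := by exact_mod_cast hN0
  have hkb : K < b ^ K := Nat.lt_pow_self (by omega)
  have hNn2 : n2 ≤ N := by
    by_contra hcon
    push Not at hcon
    have : B * N ≤ B * n2 := Nat.mul_le_mul_left _ hcon.le
    omega
  -- the level
  obtain ⟨z, hz⟩ : ∃ z, z = ⌈L ^ E1⌉₊ := ⟨_, rfl⟩
  have hz1 : L ^ E1 ≤ z := by rw [hz]; exact Nat.le_ceil _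
  have hz2 : (z : ℝ) ≤ L ^ (E1 + 1) := by
    have q1 : (z : ℝ) < L ^ E1 + 1 := by rw [hz]; exact Nat.ceil_lt_add_one (by positivity)
    have q2 : 1 ≤ L ^ E1 := one_le_pow₀ (by linarith)
    rw [pow_succ]
    nlinarith
  have hz3 : L ^ B0 ≤ z := (pow_le_pow_right₀ (by linarith) (by omega)).trans hz1
  have hz4 : L ^ 2 ≤ z := (pow_le_pow_right₀ (by linarith) (by omega)).trans hz1
  have hD := h1 K (by omega) α hα Ω p Y q φ hφ (fun i => (hq i).1) hlaw hsum N hN1 hN2 hqN hY z (by rw [← hL]; exact hz3)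
    (by rw [← hL]; exact hz2) (fun n => ArithmeticFunction.vonMangoldt n) (by
      intro n hn
      rw [mem_Icc] at hn
      rw [abs_of_nonneg ArithmeticFunction.vonMangoldt_nonneg]
      have q1 : Real.log (n : ℝ) ≤ L := by
        rw [hL]
        apply Real.log_le_log (by exact_mod_cast hn.1)
        exact_mod_cast hn.2
      exact ArithmeticFunction.vonMangoldt_le_log.trans (q1.trans a3))
  rw [← hL] at hD
  have hKr1 : (1 : ℝ) ≤ K := by exact_mod_cast (by omega : 1 ≤ K)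
  -- the degenerate vectors
  have hpp : ∀ m ∈ Fintype.piFinset Ω, 0 ≤ ∏ j, p j (m j) := fun m hm =>
    prod_nonneg fun j _ => (hlaw j).nonneg _ (Fintype.mem_piFinset.1 hm j)
  have hdeg : ∀ (i : Fin s) (g : (Fin s → α) → ℤ), (∀ m v, g (Function.update m i v) = g m) →
      ∑ ω ∈ Fintype.piFinset Ω, (∏ i, p i (ω i)) * (if Y i (ω i) = g ω then (1 : ℝ) else 0) ≤ 1 / (K : ℝ) ^ (U + 3) := by
    intro i g hg
    have e1 := avg_w Ω p hsum i (fun ω => if Y i (ω i) = g ω then (1 : ℝ) else 0)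
    rw [← e1]
    have e2 : ∀ m ∈ Fintype.piFinset Ω, (∏ j, p j (m j)) *
        ∑ v ∈ Ω i, p i v * (if Y i ((Function.update m i v) i) = g (Function.update m i v) then (1 : ℝ) else 0) ≤
        (∏ j, p j (m j)) * (1 / (K : ℝ) ^ (U + 3)) := by
      intro m hm
      apply mul_le_mul_of_nonneg_left _ (hpp m hm)
      refine le_trans (le_of_eq ?_) (h5 K (by omega) α (Ω i) (p i) (Y i) ((hlaw i).mono (by omega) (by omega)) (g m))
      apply sum_congr rfl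
      intro v _
      rw [Function.update_self, hg]
    refine (sum_le_sum e2).trans (le_of_eq ?_)
    rw [← sum_mul, total_w Ω p hsum, one_mul]
  have hdeg1 : ∀ i : Fin s, ∑ ω ∈ Fintype.piFinset Ω, (∏ i, p i (ω i)) * (if Y i (ω i) = 0 then (1 : ℝ) else 0) ≤ 1 / (K : ℝ) ^ (U + 3) :=
    fun i => hdeg i (fun _ => 0) (fun _ _ => rfl)
  have hdeg2 : ∀ i j : Fin s, ∑ ω ∈ Fintype.piFinset Ω, (∏ i, p i (ω i)) *
      (if j ≠ i ∧ (q j : ℤ) * Y i (ω i) = q i * Y j (ω j) then (1 : ℝ) else 0) ≤ 1 / (K : ℝ) ^ (U + 3) := by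
    intro i j
    by_cases hij : j ≠ i
    · refine le_trans (sum_le_sum fun ω hω => ?_) (hdeg i (fun ω => (q i * Y j (ω j)) / (q j : ℤ)) (fun m v => by
        rw [Function.update_of_ne hij]))
      apply mul_le_mul_of_nonneg_left _ (hpp ω hω)
      have hqj : (q j : ℤ) ≠ 0 := by
        have := (hq j).1
        exact_mod_cast (by omega : q j ≠ 0)
      by_cases hc : j ≠ i ∧ (q j : ℤ) * Y i (ω i) = q i * Y j (ω j)
      · rw [if_pos hc, if_pos]
        rw [← hc.2, Int.mul_ediv_cancel_left _ hqj]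
      · rw [if_neg hc]
        split_ifs <;> norm_num
    · have : ∀ ω : Fin s → α, ¬ (j ≠ i ∧ (q j : ℤ) * Y i (ω i) = q i * Y j (ω j)) := fun ω h => hij h.1
      simp only [this, if_false, mul_zero, sum_const_zero]
      positivity
  obtain ⟨DD, hDD⟩ : ∃ DD : (Fin s → α) → ℝ, DD = fun ω => |∑ n ∈ Icc 1 N, ArithmeticFunction.vonMangoldt n *
        (∏ i : Fin t, lamI ((q (φ i) : ℤ) * (n : ℤ) + Y (φ i) (ω (φ i))) -
          ∏ i : Fin t, lamzI z ((q (φ i) : ℤ) * (n : ℤ) + Y (φ i) (ω (φ i))))| := ⟨_, rfl⟩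
  have hDDr : ∀ ω, |∑ n ∈ Icc 1 N, ArithmeticFunction.vonMangoldt n *
        (∏ i : Fin t, lamI ((q (φ i) : ℤ) * (n : ℤ) + Y (φ i) (ω (φ i))) -
          ∏ i : Fin t, lamzI z ((q (φ i) : ℤ) * (n : ℤ) + Y (φ i) (ω (φ i))))| = DD ω :=
    fun ω => by rw [hDD]
  simp only [hDDr] at hD
  obtain ⟨C, hC⟩ : ∃ C : ℝ, C = 1 / (δ * N) := ⟨_, rfl⟩
  have hC0 : 0 ≤ C := by rw [hC]; positivity
  have hpt : ∀ ω ∈ Fintype.piFinset Ω, (if Ev ω then ∏ i, p i (ω i) else 0) ≤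
      ∑ i : Fin s, (∏ i, p i (ω i)) * (if Y i (ω i) = 0 then (1 : ℝ) else 0) +
      ∑ i : Fin s, ∑ j : Fin s, (∏ i, p i (ω i)) *
        (if j ≠ i ∧ (q j : ℤ) * Y i (ω i) = q i * Y j (ω j) then (1 : ℝ) else 0) +
      C * ((∏ i, p i (ω i)) * DD ω) := by
    intro ω hω
    have hP0' := hpp ω hω
    obtain ⟨P, hP⟩ : ∃ P, P = ∏ i, p i (ω i) := ⟨_, rfl⟩
    rw [← hP] at hP0' ⊢
    have hDD0 : 0 ≤ DD ω := by rw [← hDDr]; exact abs_nonneg _
    have t1 : ∀ i ∈ (univ : Finset (Fin s)), 0 ≤ P * (if Y i (ω i) = 0 then (1 : ℝ) else 0) := fun i _ =>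
      mul_nonneg hP0' (by split_ifs <;> norm_num)
    have t2 : ∀ i ∈ (univ : Finset (Fin s)), ∀ j ∈ (univ : Finset (Fin s)), 0 ≤ P *
        (if j ≠ i ∧ (q j : ℤ) * Y i (ω i) = q i * Y j (ω j) then (1 : ℝ) else 0) :=
      fun i _ j _ => mul_nonneg hP0' (by split_ifs <;> norm_num)
    have t1' := sum_nonneg t1
    have t2' := sum_nonneg fun i hi => sum_nonneg (t2 i hi)
    have t3 : 0 ≤ C * (P * DD ω) := by positivity
    by_cases hEω : Ev ω
    swap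
    · rw [if_neg hEω]
      linarith
    rw [if_pos hEω]
    obtain ⟨hpos, hnot⟩ := hEv ω hω hEω
    by_cases q1 : ∃ i, Y i (ω i) = 0
    · obtain ⟨i, hi⟩ := q1
      have q2 := single_le_sum t1 (mem_univ i)
      rw [if_pos hi, mul_one] at q2
      linarith
    by_cases q3 : ∃ i j, j ≠ i ∧ (q j : ℤ) * Y i (ω i) = q i * Y j (ω j)
    · obtain ⟨i, j, hij⟩ := q3
      have q2 := single_le_sum (f := fun j => P * (if j ≠ i ∧ (q j : ℤ) * Y i (ω i) = q i * Y j (ω j) then (1 : ℝ) else 0))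
        (t2 i (mem_univ i)) (mem_univ j)
      have q4 := single_le_sum (f := fun i => ∑ j : Fin s, P *
        (if j ≠ i ∧ (q j : ℤ) * Y i (ω i) = q i * Y j (ω j) then (1 : ℝ) else 0))
        (fun i hi => sum_nonneg (t2 i hi)) (mem_univ i)
      rw [if_pos hij, mul_one] at q2
      linarith
    push Not at q1 q3
    -- the main case
    have q5 : δ * N < DD ω := by
      by_contra hcon
      push Not at hcon
      apply hnot
      apply h2 N hNn2 z (by rw [← hL]; exact hz4) (by rw [← hL]; exact hz2)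
      · intro i
        exact hq (φ i)
      · intro i
        exact hpos (φ i)
      · intro i
        have r1 := (hY (φ i) (ω (φ i)) (Fintype.mem_piFinset.1 hω (φ i))).2
        have r2 : (0 : ℤ) ≤ (q (φ i) : ℤ) * N := by positivity
        have r3 : (b : ℤ) ^ K ≤ (B : ℤ) * N := by exact_mod_cast hN1
        linarith
      · intro i
        exact q1 (φ i)
      · intro i j hij h0
        exact q3 (φ j) (φ i) (fun h => hij (hφ h)) h0
      · rw [hDDr]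
        exact hcon
    have q6 : 1 ≤ C * DD ω := by
      rw [hC, one_div, ← div_eq_inv_mul, le_div_iff₀ (by positivity), one_mul]
      exact q5.le
    have q7 : P ≤ C * (P * DD ω) := by
      calc P = P * 1 := (mul_one _).symm
        _ ≤ P * (C * DD ω) := mul_le_mul_of_nonneg_left q6 hP0'
        _ = _ := by ring
    linarith
  refine (sum_le_sum hpt).trans ?_
  rw [sum_add_distrib, sum_add_distrib, ← mul_sum]
  have g1 : ∑ ω ∈ Fintype.piFinset Ω, ∑ i : Fin s, (∏ i, p i (ω i)) * (if Y i (ω i) = 0 then (1 : ℝ) else 0) ≤ s * (1 / (K : ℝ) ^ (U + 3)) := by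
    rw [sum_comm]
    refine (sum_le_sum fun i _ => hdeg1 i).trans (le_of_eq ?_)
    rw [sum_const, card_univ, Fintype.card_fin, nsmul_eq_mul]
  have g2 : ∑ ω ∈ Fintype.piFinset Ω, ∑ i : Fin s, ∑ j : Fin s, (∏ i, p i (ω i)) *
      (if j ≠ i ∧ (q j : ℤ) * Y i (ω i) = q i * Y j (ω j) then (1 : ℝ) else 0) ≤ (s * s) * (1 / (K : ℝ) ^ (U + 3)) := by
    rw [sum_comm]
    have g3 : ∀ i ∈ (univ : Finset (Fin s)), ∑ ω ∈ Fintype.piFinset Ω, ∑ j : Fin s, (∏ i, p i (ω i)) *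
      (if j ≠ i ∧ (q j : ℤ) * Y i (ω i) = q i * Y j (ω j) then (1 : ℝ) else 0) ≤ s * (1 / (K : ℝ) ^ (U + 3)) := by
      intro i _
      rw [sum_comm]
      refine (sum_le_sum fun j _ => hdeg2 i j).trans (le_of_eq ?_)
      rw [sum_const, card_univ, Fintype.card_fin, nsmul_eq_mul]
    refine (sum_le_sum g3).trans (le_of_eq ?_)
    rw [sum_const, card_univ, Fintype.card_fin, nsmul_eq_mul]
    ring
  have hK0 : (0 : ℝ) < K := by linarith
  have g5 : C * ∑ ω ∈ Fintype.piFinset Ω, (∏ i, p i (ω i)) * DD ω ≤ 4 ^ (U + 3) / δ * (1 / (K : ℝ) ^ (U + 3)) := by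
    calc C * ∑ ω ∈ Fintype.piFinset Ω, (∏ i, p i (ω i)) * DD ω ≤ C * (N / L ^ (U + 3)) := mul_le_mul_of_nonneg_left hD hC0
      _ = 1 / δ * (1 / L ^ (U + 3)) := by
          rw [hC]
          field_simp
      _ ≤ 1 / δ * (4 ^ (U + 3) * (1 / (K : ℝ) ^ (U + 3))) := by
          apply mul_le_mul_of_nonneg_left _ (by positivity)
          rw [mul_one_div, div_le_div_iff₀ (by positivity) (by positivity), one_mul, ← mul_pow]
          exact pow_le_pow_left₀ hK0.le a5 _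
      _ = _ := by ring
  have hkk : (s : ℝ) + s * s + 4 ^ (U + 3) / δ ≤ K := hk4.trans (by exact_mod_cast (by omega : k4 ≤ K))
  have hKU : 0 < (K : ℝ) ^ (U + 3) := by positivity
  calc _ ≤ s * (1 / (K : ℝ) ^ (U + 3)) + (s * s) * (1 / (K : ℝ) ^ (U + 3)) + 4 ^ (U + 3) / δ * (1 / (K : ℝ) ^ (U + 3)) :=
        add_le_add (add_le_add g1 g2) g5
    _ = ((s : ℝ) + s * s + 4 ^ (U + 3) / δ) * (1 / (K : ℝ) ^ (U + 3)) := by ring
    _ ≤ K * (1 / (K : ℝ) ^ (U + 3)) := mul_le_mul_of_nonneg_right hkk (by positivity)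
    _ = 1 / (K : ℝ) ^ (U + 2) := by rw [show U + 3 = (U + 2) + 1 by ring, pow_succ]; field_simp
    _ ≤ 1 / (K : ℝ) ^ U := by
        apply one_div_le_one_div_of_le (by positivity)
        exact pow_le_pow_right₀ hKr1 (by omega)

end Pool.Agent.W2helper30.CF
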